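import Pool.Agent.R563.TP.Stm

set_option autoImplicit false

/-!
# Weighted loads of the classes `(j, e i)`
-/

namespace Pool.Agent.H34TP

open Finset
open scoped Classical

/-- the class of the query `(i, j)` -/
def cls {k u : ℕ} (e : Fin k → Fin u) (q : Fin k × Fin k) : Fin k × Fin u := (q.2, e q.1)

/-- the weight of the queries with the cell `a` -/
noncomputable def deg {k S : ℕ} (w : Fin k × Fin k → ℝ) (α : Fin k × Fin k → Fin S) (a : Fin S) : ℝ :=
  ∑ q, if α q = a then w q else 0

/-- the weight of the queries with the cell `a` in the class `l` -/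
noncomputable def load {k u S : ℕ} (w : Fin k × Fin k → ℝ) (α : Fin k × Fin k → Fin S)
    (e : Fin k → Fin u) (a : Fin S) (l : Fin k × Fin u) : ℝ :=
  ∑ q, if α q = a ∧ cls e q = l then w q else 0

theorem deg_nonneg {k S : ℕ} {w : Fin k × Fin k → ℝ} (hw : ∀ q, 0 ≤ w q)
    (α : Fin k × Fin k → Fin S) (a : Fin S) : 0 ≤ deg w α a :=
  sum_nonneg fun q _ => by split_ifs <;> [exact hw q; exact le_rfl]

theorem sum_deg {k S : ℕ} (w : Fin k × Fin k → ℝ) (α : Fin k × Fin k → Fin S) :
    ∑ a, deg w α a = ∑ q, w q := by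
  unfold deg
  rw [sum_comm]
  refine sum_congr rfl fun q _ => ?_
  simp

theorem load_nonneg {k u S : ℕ} {w : Fin k × Fin k → ℝ} (hw : ∀ q, 0 ≤ w q)
    (α : Fin k × Fin k → Fin S) (e : Fin k → Fin u) (a : Fin S) (l : Fin k × Fin u) :
    0 ≤ load w α e a l :=
  sum_nonneg fun q _ => by split_ifs <;> [exact hw q; exact le_rfl]

theorem sum_load {k u S : ℕ} (w : Fin k × Fin k → ℝ) (α : Fin k × Fin k → Fin S)
    (e : Fin k → Fin u) (a : Fin S) : ∑ l, load w α e a l = deg w α a := by
  unfold load deg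
  rw [sum_comm]
  refine sum_congr rfl fun q _ => ?_
  by_cases h : α q = a <;> simp [h]

/-- `exp x ≤ 1 + 2 x` for `0 ≤ x ≤ 1` -/
theorem exp_le {x : ℝ} (h0 : 0 ≤ x) (h1 : x ≤ 1) : Real.exp x ≤ 1 + 2 * x := by
  have h2 := Real.abs_exp_sub_one_sub_id_le (x := x) (by rw [abs_le]; constructor <;> linarith)
  have h3 := (abs_le.1 h2).2
  nlinarith

/-- one class -/
theorem chernoff {k u : ℕ} (hu : 1 ≤ u) (v : Fin k → ℝ) {B : ℝ} (hB : 0 < B)
    (hv0 : ∀ i, 0 ≤ v i) (hvB : ∀ i, v i ≤ B) (c : Fin u) (L : ℝ) :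
    ((univ.filter fun e : Fin k → Fin u =>
      ¬ (∑ i, (if e i = c then v i else 0) ≤ 2 * (∑ i, v i) / u + B * L)).card : ℝ) ≤
      (u : ℝ) ^ k * Real.exp (-L) := by
  have hu' : (0 : ℝ) < u := by exact_mod_cast hu
  -- the moment
  have h1 : ∑ e : Fin k → Fin u, Real.exp ((∑ i, (if e i = c then v i else 0)) / B) ≤
      (u : ℝ) ^ k * Real.exp (2 * (∑ i, v i) / u / B) := by
    have e1 : ∀ e : Fin k → Fin u, Real.exp ((∑ i, (if e i = c then v i else 0)) / B) =
        ∏ i, Real.exp (if e i = c then v i / B else 0) := by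
      intro e
      rw [← Real.exp_sum, Finset.sum_div]
      congr 1
      refine sum_congr rfl fun i _ => ?_
      split_ifs <;> simp
    simp only [e1]
    have e2 : ∑ e : Fin k → Fin u, ∏ i, Real.exp (if e i = c then v i / B else 0) =
        ∏ i : Fin k, ∑ a : Fin u, Real.exp (if a = c then v i / B else 0) := by
      rw [Finset.prod_univ_sum, Fintype.piFinset_univ]
    rw [e2]
    have e3 : ∀ i : Fin k, ∑ a : Fin u, Real.exp (if a = c then v i / B else 0) ≤
        u * Real.exp (2 * v i / u / B) := by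
      intro i
      have hx0 : 0 ≤ v i / B := div_nonneg (hv0 i) hB.le
      have hx1 : v i / B ≤ 1 := by rw [div_le_one hB]; exact hvB i
      have e4 : ∀ a : Fin u, Real.exp (if a = c then v i / B else 0) ≤
          1 + if a = c then 2 * (v i / B) else 0 := by
        intro a
        split_ifs
        · exact exp_le hx0 hx1
        · simp
      refine (sum_le_sum fun a _ => e4 a).trans ?_
      rw [Finset.sum_add_distrib]
      simp only [Finset.sum_const, Finset.card_univ, Fintype.card_fin, nsmul_eq_mul, mul_one,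
        Finset.sum_ite_eq', Finset.mem_univ, if_true]
      have e5 := Real.add_one_le_exp (2 * v i / u / B)
      have e6 : (u : ℝ) + 2 * (v i / B) = u * (2 * v i / u / B + 1) := by
        field_simp
        ring
      rw [e6]
      exact mul_le_mul_of_nonneg_left e5 hu'.le
    calc ∏ i : Fin k, ∑ a : Fin u, Real.exp (if a = c then v i / B else 0)
        ≤ ∏ i : Fin k, ((u : ℝ) * Real.exp (2 * v i / u / B)) :=
          Finset.prod_le_prod (fun i _ => sum_nonneg fun a _ => (Real.exp_pos _).le)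
            fun i _ => e3 i
      _ = (u : ℝ) ^ k * Real.exp (2 * (∑ i, v i) / u / B) := by
          rw [Finset.prod_mul_distrib, Finset.prod_const, Finset.card_univ, Fintype.card_fin,
            ← Real.exp_sum]
          congr 2
          rw [Finset.mul_sum, Finset.sum_div, Finset.sum_div]
  -- Markov
  set bad := univ.filter fun e : Fin k → Fin u =>
      ¬ (∑ i, (if e i = c then v i else 0) ≤ 2 * (∑ i, v i) / u + B * L) with hbad
  have h2 : (bad.card : ℝ) * Real.exp (2 * (∑ i, v i) / u / B + L) ≤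
      (u : ℝ) ^ k * Real.exp (2 * (∑ i, v i) / u / B) := by
    refine le_trans ?_ h1
    rw [← nsmul_eq_mul, ← Finset.sum_const]
    refine le_trans (Finset.sum_le_sum ?_) (Finset.sum_le_univ_sum_of_nonneg
      (f := fun e : Fin k → Fin u => Real.exp ((∑ i, (if e i = c then v i else 0)) / B))
      fun e => (Real.exp_pos _).le)
    intro e he
    rw [hbad, Finset.mem_filter] at he
    have h3 := not_le.1 he.2
    apply Real.exp_le_exp.2
    rw [le_div_iff₀ hB]
    have h4 : (2 * (∑ i, v i) / u / B + L) * B = 2 * (∑ i, v i) / u + B * L := by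
      field_simp
    rw [h4]
    exact h3.le
  rw [Real.exp_add] at h2
  have h5 : (0 : ℝ) < Real.exp (2 * (∑ i, v i) / u / B) := Real.exp_pos _
  have h6 : (bad.card : ℝ) * Real.exp L ≤ (u : ℝ) ^ k := by
    refine le_of_mul_le_mul_right ?_ h5
    calc _ = (bad.card : ℝ) * (Real.exp (2 * (∑ i, v i) / u / B) * Real.exp L) := by ring
      _ ≤ _ := h2
  rw [Real.exp_neg, ← div_eq_mul_inv, le_div_iff₀ (Real.exp_pos _)]
  exact h6

/-- the load of every class is small -/
def GoodE {k u S : ℕ} (w : Fin k × Fin k → ℝ) (α : Fin k × Fin k → Fin S) (B L : ℝ)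
    (e : Fin k → Fin u) : Prop :=
  ∀ (a : Fin S) (l : Fin k × Fin u), load w α e a l ≤ 2 * deg w α a / u + B * L

theorem bad_one {k u S : ℕ} (hu : 1 ≤ u) (w : Fin k × Fin k → ℝ) (α : Fin k × Fin k → Fin S)
    {B : ℝ} (hB : 0 < B) (hw0 : ∀ q, 0 ≤ w q) (hwB : ∀ q, w q ≤ B) (L : ℝ) (a : Fin S)
    (l : Fin k × Fin u) :
    ((univ.filter fun e : Fin k → Fin u =>
      ¬ (load w α e a l ≤ 2 * deg w α a / u + B * L)).card : ℝ) ≤ (u : ℝ) ^ k * Real.exp (-L) := by
  have hu' : (0 : ℝ) < u := by exact_mod_cast hu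
  obtain ⟨j, c⟩ := l
  let v : Fin k → ℝ := fun i => if α (i, j) = a then w (i, j) else 0
  have h1 := chernoff hu v hB (fun i => by simp only [v]; split_ifs <;> [exact hw0 _; exact le_rfl])
    (fun i => by simp only [v]; split_ifs <;> [exact hwB _; exact hB.le]) c L
  have h2 : ∀ e : Fin k → Fin u, load w α e a (j, c) = ∑ i, (if e i = c then v i else 0) := by
    intro e
    unfold load cls
    rw [Fintype.sum_prod_type]
    refine sum_congr rfl fun i _ => ?_
    rw [Finset.sum_eq_single j]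
    · simp only [v, Prod.mk.injEq, true_and]
      by_cases h3 : α (i, j) = a <;> by_cases h4 : e i = c <;> simp [h3, h4]
    · intro j' _ hj'
      rw [if_neg]
      rintro ⟨-, h4⟩
      simp only [Prod.mk.injEq] at h4
      exact hj' h4.1
    · simp
  have h3 : ∑ i, v i ≤ deg w α a := by
    unfold deg
    rw [Fintype.sum_prod_type]
    refine sum_le_sum fun i _ => ?_
    exact Finset.single_le_sum (f := fun j => if α (i, j) = a then w (i, j) else 0)
      (fun j _ => by split_ifs <;> [exact hw0 _; exact le_rfl]) (mem_univ j)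
  refine le_trans ?_ h1
  have h4 : (univ.filter fun e : Fin k → Fin u =>
      ¬ (load w α e a (j, c) ≤ 2 * deg w α a / u + B * L)) ⊆
      univ.filter fun e : Fin k → Fin u =>
      ¬ (∑ i, (if e i = c then v i else 0) ≤ 2 * (∑ i, v i) / u + B * L) := by
    intro e he
    rw [Finset.mem_filter] at he ⊢
    refine ⟨mem_univ _, fun h5 => he.2 ?_⟩
    rw [h2]
    refine h5.trans ?_
    gcongr
  exact_mod_cast Finset.card_le_card h4

theorem bad_all {k u S : ℕ} (hu : 1 ≤ u) (w : Fin k × Fin k → ℝ) (α : Fin k × Fin k → Fin S)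
    {B : ℝ} (hB : 0 < B) (hw0 : ∀ q, 0 ≤ w q) (hwB : ∀ q, w q ≤ B) (L : ℝ) :
    ((univ.filter fun e : Fin k → Fin u => ¬ GoodE w α B L e).card : ℝ) ≤
      S * (k * u) * ((u : ℝ) ^ k * Real.exp (-L)) := by
  have h1 : (univ.filter fun e : Fin k → Fin u => ¬ GoodE w α B L e) ⊆
      (univ : Finset (Fin S × (Fin k × Fin u))).biUnion fun x =>
        univ.filter fun e : Fin k → Fin u =>
          ¬ (load w α e x.1 x.2 ≤ 2 * deg w α x.1 / u + B * L) := by
    intro e he
    rw [Finset.mem_filter] at he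
    unfold GoodE at he
    push Not at he
    obtain ⟨-, a, l, h2⟩ := he
    rw [Finset.mem_biUnion]
    exact ⟨(a, l), mem_univ _, Finset.mem_filter.2 ⟨mem_univ _, not_le.2 h2⟩⟩
  have h2 : ((univ.filter fun e : Fin k → Fin u => ¬ GoodE w α B L e).card : ℝ) ≤
      ∑ x : Fin S × (Fin k × Fin u), ((univ.filter fun e : Fin k → Fin u =>
          ¬ (load w α e x.1 x.2 ≤ 2 * deg w α x.1 / u + B * L)).card : ℝ) := by
    exact_mod_cast (Finset.card_le_card h1).trans Finset.card_biUnion_le
  refine h2.trans ((sum_le_sum fun x _ => bad_one hu w α hB hw0 hwB L x.1 x.2).trans ?_)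
  rw [Finset.sum_const, Finset.card_univ, Fintype.card_prod, Fintype.card_prod, Fintype.card_fin,
    Fintype.card_fin, Fintype.card_fin, nsmul_eq_mul]
  push_cast
  exact le_rfl

end Pool.Agent.H34TP
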