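import Pool.Agent.H34TP.Cube
import Pool.Agent.H34TP.Load
import Pool.Agent.R563.TP.Mom3

set_option autoImplicit false

/-!
# The last two probes
-/

namespace Pool.Agent.H34TP

open Finset Pool.Agent.R563.TP
open scoped Classical

/-- the indicator of a truth value -/
noncomputable def ind (b : Bool) : ℝ := if b = true then 1 else 0

theorem ind_nonneg (b : Bool) : 0 ≤ ind b := by unfold ind; split_ifs <;> norm_num
theorem ind_le (b : Bool) : ind b ≤ 1 := by unfold ind; split_ifs <;> norm_num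

theorem abs_sg' (b : Bool) : |sg b| = 1 := by unfold sg; split_ifs <;> simp

/-- the sum for the last two probes -/
noncomputable def val2 {k u S : ℕ} (w ζ : Fin k × Fin k → ℝ) (e : Fin k → Fin u)
    (α β : Fin k × Fin k → Fin S) (f g : Fin S → Bool) (Y : Fin k × Fin u → Bool) : ℝ :=
  ∑ q, w q * ζ q * sg (Y (cls e q)) * (ind (f (α q)) * ind (g (β q)))

theorem val2_term_abs {k u S : ℕ} {w ζ : Fin k × Fin k → ℝ} (hw : ∀ q, 0 ≤ w q)
    (hζ : ∀ q, |ζ q| ≤ 1) (e : Fin k → Fin u) (α β : Fin k × Fin k → Fin S) (f g : Fin S → Bool)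
    (Y : Fin k × Fin u → Bool) (q : Fin k × Fin k) :
    |w q * ζ q * sg (Y (cls e q)) * (ind (f (α q)) * ind (g (β q)))| ≤ w q := by
  rw [abs_mul, abs_mul, abs_mul, abs_sg', abs_of_nonneg (hw q), mul_one]
  have h1 : |ind (f (α q)) * ind (g (β q))| ≤ 1 := by
    rw [abs_of_nonneg (mul_nonneg (ind_nonneg _) (ind_nonneg _))]
    exact mul_le_one₀ (ind_le _) (ind_nonneg _) (ind_le _)
  calc w q * |ζ q| * |ind (f (α q)) * ind (g (β q))| ≤ w q * 1 * 1 := by
        have := hw q
        have h2 := hζ q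
        gcongr
    _ = w q := by ring

theorem val2_le {k u S : ℕ} {w ζ : Fin k × Fin k → ℝ} (hw : ∀ q, 0 ≤ w q)
    (hζ : ∀ q, |ζ q| ≤ 1) (e : Fin k → Fin u) (α β : Fin k × Fin k → Fin S) (f g : Fin S → Bool)
    (Y : Fin k × Fin u → Bool) : val2 w ζ e α β f g Y ≤ ∑ q, w q :=
  sum_le_sum fun q _ => (le_abs_self _).trans (val2_term_abs hw hζ e α β f g Y q)

/-- the entries of the matrices -/
noncomputable def ent {k u S : ℕ} (w ζ : Fin k × Fin k → ℝ) (e : Fin k → Fin u)
    (α β : Fin k × Fin k → Fin S) (l : Fin k × Fin u) (a b : Fin S) : ℝ :=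
  ∑ q, if cls e q = l ∧ α q = a ∧ β q = b then w q * ζ q else 0

/-- the symmetric matrices -/
noncomputable def Cm {k u S : ℕ} (w ζ : Fin k × Fin k → ℝ) (e : Fin k → Fin u)
    (α β : Fin k × Fin k → Fin S) (l : Fin k × Fin u) : Fin S ⊕ Fin S → Fin S ⊕ Fin S → ℝ
  | Sum.inl a, Sum.inr b => ent w ζ e α β l a b
  | Sum.inr b, Sum.inl a => ent w ζ e α β l a b
  | Sum.inl _, Sum.inl _ => 0
  | Sum.inr _, Sum.inr _ => 0

theorem Cm_symm {k u S : ℕ} (w ζ : Fin k × Fin k → ℝ) (e : Fin k → Fin u)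
    (α β : Fin k × Fin k → Fin S) (l : Fin k × Fin u) (x y : Fin S ⊕ Fin S) :
    Cm w ζ e α β l x y = Cm w ζ e α β l y x := by
  rcases x with x | x <;> rcases y with y | y <;> rfl

theorem abs_ent_le {k u S : ℕ} {w ζ : Fin k × Fin k → ℝ} (hw : ∀ q, 0 ≤ w q)
    (hζ : ∀ q, |ζ q| ≤ 1) (e : Fin k → Fin u) (α β : Fin k × Fin k → Fin S) (l : Fin k × Fin u)
    (a b : Fin S) : |ent w ζ e α β l a b| ≤
      ∑ q, if cls e q = l ∧ α q = a ∧ β q = b then w q else 0 := by
  unfold ent
  refine (abs_sum_le_sum_abs _ _).trans (sum_le_sum fun q _ => ?_)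
  split_ifs
  · rw [abs_mul, abs_of_nonneg (hw q)]
    exact mul_le_of_le_one_right (hw q) (hζ q)
  · simp

theorem row_a {k u S : ℕ} {w ζ : Fin k × Fin k → ℝ} (hw : ∀ q, 0 ≤ w q)
    (hζ : ∀ q, |ζ q| ≤ 1) (e : Fin k → Fin u) (α β : Fin k × Fin k → Fin S) (l : Fin k × Fin u)
    (a : Fin S) : ∑ b, |ent w ζ e α β l a b| ≤ load w α e a l := by
  refine (sum_le_sum fun b _ => abs_ent_le hw hζ e α β l a b).trans (le_of_eq ?_)
  unfold load
  rw [sum_comm]
  refine sum_congr rfl fun q _ => ?_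
  by_cases h1 : cls e q = l <;> by_cases h2 : α q = a <;> simp [h1, h2]

theorem row_b {k u S : ℕ} {w ζ : Fin k × Fin k → ℝ} (hw : ∀ q, 0 ≤ w q)
    (hζ : ∀ q, |ζ q| ≤ 1) (e : Fin k → Fin u) (α β : Fin k × Fin k → Fin S) (l : Fin k × Fin u)
    (b : Fin S) : ∑ a, |ent w ζ e α β l a b| ≤ load w β e b l := by
  refine (sum_le_sum fun a _ => abs_ent_le hw hζ e α β l a b).trans (le_of_eq ?_)
  unfold load
  rw [sum_comm]
  refine sum_congr rfl fun q _ => ?_
  by_cases h1 : cls e q = l <;> by_cases h2 : β q = b <;> simp [h1, h2]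

/-- the row sums -/
theorem row {k u S : ℕ} {w ζ : Fin k × Fin k → ℝ} (hw : ∀ q, 0 ≤ w q)
    (hζ : ∀ q, |ζ q| ≤ 1) (e : Fin k → Fin u) (α β : Fin k × Fin k → Fin S) (l : Fin k × Fin u)
    (x : Fin S ⊕ Fin S) : ∑ y, |Cm w ζ e α β l x y| ≤
      Sum.elim (fun a => load w α e a l) (fun b => load w β e b l) x := by
  rw [Fintype.sum_sum_type]
  rcases x with a | b
  · simp only [Cm, abs_zero, sum_const_zero, zero_add, Sum.elim_inl]
    exact row_a hw hζ e α β l a
  · simp only [Cm, abs_zero, sum_const_zero, add_zero, Sum.elim_inr]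
    exact row_b hw hζ e α β l b

/-- the contents as a vector -/
noncomputable def vec {S : ℕ} (f g : Fin S → Bool) : Fin S ⊕ Fin S → ℝ :=
  Sum.elim (fun a => ind (f a)) (fun b => ind (g b))

theorem form {k u S : ℕ} (w ζ : Fin k × Fin k → ℝ) (e : Fin k → Fin u)
    (α β : Fin k × Fin k → Fin S) (f g : Fin S → Bool) (Y : Fin k × Fin u → Bool) :
    ∑ x, ∑ y, vec f g x * (∑ l, sg (Y l) * Cm w ζ e α β l x y) * vec f g y =
      2 * val2 w ζ e α β f g Y := by
  have h0 : ∀ a b : Fin S, ∑ l, sg (Y l) * ent w ζ e α β l a b =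
      ∑ q, if α q = a ∧ β q = b then w q * ζ q * sg (Y (cls e q)) else 0 := by
    intro a b
    unfold ent
    simp only [mul_sum]
    rw [sum_comm]
    refine sum_congr rfl fun q _ => ?_
    rw [Finset.sum_eq_single (cls e q)]
    · by_cases h1 : α q = a ∧ β q = b
      · rw [if_pos ⟨rfl, h1⟩, if_pos h1]; ring
      · rw [if_neg (fun h => h1 h.2), if_neg h1, mul_zero]
    · intro l _ hl
      rw [if_neg (fun h => hl h.1.symm), mul_zero]
    · simp
  have h1 : ∑ a, ∑ b, ind (f a) * (∑ l, sg (Y l) * ent w ζ e α β l a b) * ind (g b) =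
      val2 w ζ e α β f g Y := by
    simp only [h0, mul_sum, sum_mul]
    have h2 : ∀ a : Fin S, ∑ b : Fin S, ∑ q, ind (f a) *
        (if α q = a ∧ β q = b then w q * ζ q * sg (Y (cls e q)) else 0) * ind (g b) =
        ∑ q, if α q = a then ind (f a) * (w q * ζ q * sg (Y (cls e q))) * ind (g (β q)) else 0 := by
      intro a
      rw [sum_comm]
      refine sum_congr rfl fun q _ => ?_
      rw [Finset.sum_eq_single (β q)]
      · by_cases h3 : α q = a <;> simp [h3]
      · intro b _ hb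
        rw [if_neg (fun h => hb h.2.symm)]; ring
      · simp
    simp only [h2]
    rw [sum_comm]
    unfold val2
    refine sum_congr rfl fun q _ => ?_
    rw [Finset.sum_eq_single (α q)]
    · rw [if_pos rfl]; ring
    · intro a _ ha
      rw [if_neg (Ne.symm ha)]
    · simp
  rw [Fintype.sum_sum_type]
  have h2 : ∀ a : Fin S, ∑ y, vec f g (Sum.inl a) *
      (∑ l, sg (Y l) * Cm w ζ e α β l (Sum.inl a) y) * vec f g y =
      ∑ b, ind (f a) * (∑ l, sg (Y l) * ent w ζ e α β l a b) * ind (g b) := by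
    intro a
    rw [Fintype.sum_sum_type]
    simp [Cm, vec]
  have h3 : ∀ b : Fin S, ∑ y, vec f g (Sum.inr b) *
      (∑ l, sg (Y l) * Cm w ζ e α β l (Sum.inr b) y) * vec f g y =
      ∑ a, ind (f a) * (∑ l, sg (Y l) * ent w ζ e α β l a b) * ind (g b) := by
    intro b
    rw [Fintype.sum_sum_type]
    simp only [Cm, vec, Sum.elim_inl, Sum.elim_inr, mul_zero, sum_const_zero, zero_mul, add_zero]
    exact sum_congr rfl fun a _ => by ring
  simp only [h2, h3]
  rw [sum_comm (f := fun (b a : Fin S) => ind (f a) * (∑ l, sg (Y l) * ent w ζ e α β l a b) *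
    ind (g b)), h1]
  ring

theorem norm_vec {k S : ℕ} {w : Fin k × Fin k → ℝ} (hw : ∀ q, 0 ≤ w q)
    (α β : Fin k × Fin k → Fin S) (f g : Fin S → Bool) {T : ℝ} (hT : 0 < T) (hST : (S : ℝ) ≤ T) :
    ∑ x, (Sum.elim (fun a => deg w α a + (∑ q, w q) / T) (fun b => deg w β b + (∑ q, w q) / T) x) *
      vec f g x ^ 2 ≤ 4 * ∑ q, w q := by
  have hm : 0 ≤ ∑ q, w q := sum_nonneg fun q _ => hw q
  have h1 : ∀ b : Bool, ind b ^ 2 ≤ 1 := fun b => pow_le_one₀ (ind_nonneg b) (ind_le b)
  have hp : 0 ≤ (∑ q, w q) / T := by positivity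
  rw [Fintype.sum_sum_type]
  simp only [Sum.elim_inl, Sum.elim_inr, vec]
  have h2 : ∀ (γ : Fin k × Fin k → Fin S) (h : Fin S → Bool),
      ∑ a, (deg w γ a + (∑ q, w q) / T) * ind (h a) ^ 2 ≤ 2 * ∑ q, w q := by
    intro γ h
    calc ∑ a, (deg w γ a + (∑ q, w q) / T) * ind (h a) ^ 2
        ≤ ∑ a, (deg w γ a + (∑ q, w q) / T) := by
          refine sum_le_sum fun a _ => mul_le_of_le_one_right ?_ (h1 _)
          exact add_nonneg (deg_nonneg hw γ a) hp
      _ = ∑ q, w q + S * ((∑ q, w q) / T) := by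
          rw [sum_add_distrib, sum_deg]
          simp
      _ ≤ ∑ q, w q + T * ((∑ q, w q) / T) := by gcongr
      _ = 2 * ∑ q, w q := by field_simp; ring
  linarith [h2 α f, h2 β g]

/-- **The matrix bound.** -/
theorem mat_bound {k u S r : ℕ} {w ζ : Fin k × Fin k → ℝ} (hw : ∀ q, 0 ≤ w q)
    (hζ : ∀ q, |ζ q| ≤ 1) (e : Fin k → Fin u) (α β : Fin k × Fin k → Fin S) {B L T τ : ℝ}
    (hu : 1 ≤ u) (hr : 1 ≤ r) (hS : 2 * S ≤ 2 ^ (2 ^ r)) (hB : 0 ≤ B) (hL : 0 ≤ L) (hT : 0 < T)
    (hST : (S : ℝ) ≤ T) (hτ : 0 < τ) (ha : GoodE w α B L e) (hb : GoodE w β B L e)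
    (f g : (Fin k × Fin u → Bool) → Fin S → Bool) :
    ∑ Y, val2 w ζ e α β (f Y) (g Y) Y ≤
      (4 * τ * (∑ q, w q) + 4 * 2 ^ r / τ * (2 * (∑ q, w q) / u + B * L * T)) * 2 ^ (k * u) := by
  have hu' : (0 : ℝ) < u := by exact_mod_cast hu
  set m := ∑ q, w q with hm
  have hm0 : 0 ≤ m := sum_nonneg fun q _ => hw q
  set K : ℝ := 2 ^ (k * u) with hK
  have hKpos : 0 < K := by positivity
  have hcardY : ∀ c : ℝ, ∑ _Y : Fin k × Fin u → Bool, c = K * c := by
    intro c
    rw [Finset.sum_const, Finset.card_univ, Fintype.card_fun, Fintype.card_bool,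
      Fintype.card_prod, Fintype.card_fin, Fintype.card_fin, nsmul_eq_mul, hK]
    push_cast
    rfl
  have htriv : ∑ Y, val2 w ζ e α β (f Y) (g Y) Y ≤ m * K := by
    refine (sum_le_sum fun Y _ => val2_le hw hζ e α β (f Y) (g Y) Y).trans ?_
    rw [hcardY, mul_comm]
  rcases hm0.eq_or_lt with hmz | hmpos
  · rw [← hmz] at htriv ⊢
    refine htriv.trans ?_
    rw [zero_mul]
    positivity
  rcases le_or_gt (∑ Y, val2 w ζ e α β (f Y) (g Y) Y) 0 with hneg | hpos
  · refine hneg.trans ?_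
    positivity
  set κ : ℝ := 2 / u + B * L * T / m with hκ
  have hκpos : 0 < κ := by positivity
  have hmκ : 2 * m / u + B * L * T = m * κ := by
    rw [hκ]; field_simp
  rw [hmκ]
  by_cases hcase : (2 : ℝ) ^ r * κ ≤ 1
  · set D : ℝ := (∑ Y, val2 w ζ e α β (f Y) (g Y) Y) / (2 * m * K) with hD
    have hDpos : 0 < D := by positivity
    have h1 := mom (Fin S ⊕ Fin S) (Fin k × Fin u) (Cm w ζ e α β)
      (Sum.elim (fun a => deg w α a + m / T) (fun b => deg w β b + m / T)) 1 κ (4 * m) D r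
      (fun Y => vec (f Y) (g Y)) (Cm_symm w ζ e α β)
      (fun x => by
        have : 0 < m / T := by positivity
        rcases x with a | a
        · have := deg_nonneg hw α a
          simp only [Sum.elim_inl]; linarith
        · have := deg_nonneg hw β a
          simp only [Sum.elim_inr]; linarith)
      hκpos hDpos (by positivity) hr
      (fun x => by
        refine (sum_le_sum fun l _ => row hw hζ e α β l x).trans ?_
        have : 0 < m / T := by positivity
        rcases x with a | a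
        · simp only [Sum.elim_inl, sum_load]; linarith
        · simp only [Sum.elim_inr, sum_load]; linarith)
      (fun x l => by
        refine (row hw hζ e α β l x).trans ?_
        have h5 : B * L ≤ B * L * T / m * (m / T) := by
          apply le_of_eq; field_simp
        have h6 : ∀ d : ℝ, 0 ≤ d → 2 * d / u + B * L ≤ κ * (d + m / T) := by
          intro d hd
          have h7 : 2 * d / u ≤ 2 / u * (d + m / T) := by
            rw [div_mul_eq_mul_div]
            have : 0 < m / T := by positivity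
            gcongr
            linarith
          have h8 : B * L * T / m * (m / T) ≤ B * L * T / m * (d + m / T) := by
            gcongr
            linarith
          rw [hκ, add_mul]
          linarith
        rcases x with a | a
        · simp only [Sum.elim_inl]
          exact (ha a l).trans (h6 _ (deg_nonneg hw α a))
        · simp only [Sum.elim_inr]
          exact (hb a l).trans (h6 _ (deg_nonneg hw β a)))
      hcase
      (by
        rw [Fintype.card_sum, Fintype.card_fin]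
        omega)
      (fun Y => norm_vec hw α β (f Y) (g Y) hT hST)
      (by
        have hcard : Fintype.card (Fin k × Fin u) = k * u := by simp
        rw [hcard, ← hK]
        have h9 : D * (4 * m) * K = 2 * ∑ Y, val2 w ζ e α β (f Y) (g Y) Y := by
          rw [hD]; field_simp; ring
        rw [h9, mul_sum]
        refine le_of_eq ?_
        have h10 : ∀ Y, ∑ x, ∑ y, vec (f Y) (g Y) x *
            (∑ l, sg (Y l) * Cm w ζ e α β l x y) * vec (f Y) (g Y) y =
            2 * val2 w ζ e α β (f Y) (g Y) Y := fun Y => form w ζ e α β (f Y) (g Y) Y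
        simp only [h10]
        refine Finset.sum_congr ?_ fun _ _ => rfl
        ext
        simp)
    rw [mul_one] at h1
    have h2 : ∑ Y, val2 w ζ e α β (f Y) (g Y) Y = 2 * D * (m * K) := by
      rw [hD]; field_simp
    rw [h2]
    have h3 : 2 * D ≤ 4 * τ + 4 * 2 ^ r / τ * κ := by
      have h4 : 4 * 2 ^ r / τ * κ = (16 * κ * 2 ^ r) / (4 * τ) := by
        field_simp; ring
      have h5 : D ^ 2 / (4 * τ) ≤ (16 * κ * 2 ^ r) / (4 * τ) := by gcongr
      have h6 : 2 * D ≤ 4 * τ + D ^ 2 / (4 * τ) := by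
        have h7 : 4 * τ + D ^ 2 / (4 * τ) - 2 * D = (4 * τ - D) ^ 2 / (4 * τ) := by
          field_simp; ring
        have h8 : 0 ≤ (4 * τ - D) ^ 2 / (4 * τ) := by positivity
        linarith
      linarith
    calc 2 * D * (m * K) ≤ (4 * τ + 4 * 2 ^ r / τ * κ) * (m * K) := by gcongr
      _ = (4 * τ * m + 4 * 2 ^ r / τ * (m * κ)) * K := by ring
  · push Not at hcase
    refine htriv.trans ?_
    have h1 : 1 ≤ 4 * τ + 4 * 2 ^ r / τ * κ := by
      have h2 : 4 * 2 ^ r / τ * κ = 4 / τ * (2 ^ r * κ) := by ring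
      have h3 : 4 / τ * 1 ≤ 4 / τ * (2 ^ r * κ) := by gcongr
      have h4 : 4 * τ + 4 / τ - 8 = 4 * (τ - 1) ^ 2 / τ := by field_simp; ring
      have h5 : 0 ≤ 4 * (τ - 1) ^ 2 / τ := by positivity
      linarith
    calc m * K = 1 * (m * K) := by ring
      _ ≤ (4 * τ + 4 * 2 ^ r / τ * κ) * (m * K) := by gcongr
      _ = (4 * τ * m + 4 * 2 ^ r / τ * (m * κ)) * K := by ring

end Pool.Agent.H34TP
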