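import Pool.Agent.H34TP.Base

set_option autoImplicit false

/-!
# The last two probes: the maximum over patterns, and the average over the maps `e`
-/

namespace Pool.Agent.H34TP

open Finset Pool.Agent.R563.TP
open scoped Classical

/-- the weight of a class -/
noncomputable def nl {k u : ℕ} (w : Fin k × Fin k → ℝ) (e : Fin k → Fin u) (l : Fin k × Fin u) : ℝ :=
  ∑ q, if cls e q = l then w q else 0

/-- the mean of the sum of the squares of the weights of the classes -/
noncomputable def VV {k : ℕ} (u : ℕ) (w : Fin k × Fin k → ℝ) : ℝ :=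
  (∑ e : Fin k → Fin u, ∑ l, nl w e l ^ 2) / (u : ℝ) ^ k

theorem VV_nonneg {k : ℕ} (u : ℕ) (w : Fin k × Fin k → ℝ) : 0 ≤ VV u w := by
  unfold VV
  positivity

/-- the maximum over the contents of the last two cells -/
noncomputable def Gm {k u S : ℕ} (w ζ : Fin k × Fin k → ℝ) (e : Fin k → Fin u)
    (α β : Fin k × Fin k → Fin S) (Y : Fin k × Fin u → Bool) : ℝ :=
  (univ : Finset ((Fin S → Bool) × (Fin S → Bool))).sup' univ_nonempty
    fun x => val2 w ζ e α β x.1 x.2 Y

theorem val2_le_Gm {k u S : ℕ} (w ζ : Fin k × Fin k → ℝ) (e : Fin k → Fin u)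
    (α β : Fin k × Fin k → Fin S) (f g : Fin S → Bool) (Y : Fin k × Fin u → Bool) :
    val2 w ζ e α β f g Y ≤ Gm w ζ e α β Y :=
  Finset.le_sup' (fun x : (Fin S → Bool) × (Fin S → Bool) => val2 w ζ e α β x.1 x.2 Y)
    (mem_univ (f, g))

theorem exists_Gm {k u S : ℕ} (w ζ : Fin k × Fin k → ℝ) (e : Fin k → Fin u)
    (α β : Fin k × Fin k → Fin S) (Y : Fin k × Fin u → Bool) :
    ∃ x : (Fin S → Bool) × (Fin S → Bool), Gm w ζ e α β Y = val2 w ζ e α β x.1 x.2 Y := by
  obtain ⟨x, -, hx⟩ := Finset.exists_mem_eq_sup' (univ_nonempty (α := (Fin S → Bool) × (Fin S → Bool)))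
    (fun x => val2 w ζ e α β x.1 x.2 Y)
  exact ⟨x, hx⟩

theorem val2_flip {k u S : ℕ} {w ζ : Fin k × Fin k → ℝ} (hw : ∀ q, 0 ≤ w q)
    (hζ : ∀ q, |ζ q| ≤ 1) (e : Fin k → Fin u) (α β : Fin k × Fin k → Fin S) (f g : Fin S → Bool)
    (Y : Fin k × Fin u → Bool) (l : Fin k × Fin u) :
    |val2 w ζ e α β f g (Function.update Y l true) -
      val2 w ζ e α β f g (Function.update Y l false)| ≤ 2 * nl w e l := by
  unfold val2 nl
  rw [← Finset.sum_sub_distrib, mul_sum]
  refine (abs_sum_le_sum_abs _ _).trans (sum_le_sum fun q _ => ?_)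
  by_cases h : cls e q = l
  · rw [if_pos h]
    refine (abs_sub _ _).trans ?_
    have h1 := val2_term_abs hw hζ e α β f g (Function.update Y l true) q
    have h2 := val2_term_abs hw hζ e α β f g (Function.update Y l false) q
    linarith
  · rw [if_neg h, Function.update_of_ne h, Function.update_of_ne h, sub_self, abs_zero, mul_zero]

theorem Gm_flip {k u S : ℕ} {w ζ : Fin k × Fin k → ℝ} (hw : ∀ q, 0 ≤ w q)
    (hζ : ∀ q, |ζ q| ≤ 1) (e : Fin k → Fin u) (α β : Fin k × Fin k → Fin S)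
    (Y : Fin k × Fin u → Bool) (l : Fin k × Fin u) :
    |Gm w ζ e α β (Function.update Y l true) -
      Gm w ζ e α β (Function.update Y l false)| ≤ 2 * nl w e l := by
  rw [abs_le]
  constructor
  · have : Gm w ζ e α β (Function.update Y l false) ≤
        Gm w ζ e α β (Function.update Y l true) + 2 * nl w e l := by
      refine Finset.sup'_le _ _ fun x _ => ?_
      have h1 := (abs_le.1 (val2_flip hw hζ e α β x.1 x.2 Y l)).1
      have h2 := val2_le_Gm w ζ e α β x.1 x.2 (Function.update Y l true)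
      linarith
    linarith
  · have : Gm w ζ e α β (Function.update Y l true) ≤
        Gm w ζ e α β (Function.update Y l false) + 2 * nl w e l := by
      refine Finset.sup'_le _ _ fun x _ => ?_
      have h1 := (abs_le.1 (val2_flip hw hζ e α β x.1 x.2 Y l)).2
      have h2 := val2_le_Gm w ζ e α β x.1 x.2 (Function.update Y l false)
      linarith
    linarith

/-- a good map `e` -/
theorem base_e {k u S r : ℕ} {w : Fin k × Fin k → ℝ} (hw : ∀ q, 0 ≤ w q) {Z : Type} [Fintype Z]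
    (ζ : Z → Fin k × Fin k → ℝ) (hζ : ∀ z q, |ζ z q| ≤ 1) (e : Fin k → Fin u)
    (α β : Fin k × Fin k → Fin S) {B L T τ lam : ℝ}
    (hu : 1 ≤ u) (hr : 1 ≤ r) (hS : 2 * S ≤ 2 ^ (2 ^ r)) (hB : 0 ≤ B) (hL : 0 ≤ L) (hT : 0 < T)
    (hST : (S : ℝ) ≤ T) (hτ : 0 < τ) (hlam : 0 < lam) (ha : GoodE w α B L e) (hb : GoodE w β B L e)
    (s : (Fin k × Fin u → Bool) → Z) (f g : (Fin k × Fin u → Bool) → Fin S → Bool) :
    ∑ Y, val2 w (ζ (s Y)) e α β (f Y) (g Y) Y ≤
      (4 * τ * (∑ q, w q) + 4 * 2 ^ r / τ * (2 * (∑ q, w q) / u + B * L * T) +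
        lam * Real.log (Fintype.card Z) + (∑ l, nl w e l ^ 2) / (2 * lam)) * 2 ^ (k * u) := by
  have h1 : ∑ Y, val2 w (ζ (s Y)) e α β (f Y) (g Y) Y ≤ ∑ Y, Gm w (ζ (s Y)) e α β Y :=
    sum_le_sum fun Y _ => val2_le_Gm _ _ _ _ _ _ _ _
  refine h1.trans ?_
  have h2 := max_bound (fun z Y => Gm w (ζ z) e α β Y) (fun l => nl w e l)
    (fun z Y l => Gm_flip hw (hζ z) e α β Y l)
    (M := 4 * τ * (∑ q, w q) + 4 * 2 ^ r / τ * (2 * (∑ q, w q) / u + B * L * T))
    (lam := lam) (fun z => by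
      choose x hx using fun Y => exists_Gm w (ζ z) e α β Y
      have h3 := mat_bound hw (hζ z) e α β hu hr hS hB hL hT hST hτ ha hb
        (fun Y => (x Y).1) (fun Y => (x Y).2)
      have hcard : Fintype.card (Fin k × Fin u) = k * u := by simp
      rw [hcard]
      refine le_trans (le_of_eq ?_) h3
      exact sum_congr rfl fun Y _ => hx Y) hlam s
  have hcard : Fintype.card (Fin k × Fin u) = k * u := by simp
  rw [hcard] at h2
  exact h2

/-- the sum over all maps `e` -/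
theorem base {k u S r : ℕ} {w : Fin k × Fin k → ℝ} {Z : Type} [Fintype Z]
    (ζ : Z → Fin k × Fin k → ℝ) (hζ : ∀ z q, |ζ z q| ≤ 1)
    (α β : Fin k × Fin k → Fin S) {B L T τ lam : ℝ}
    (hu : 1 ≤ u) (hr : 1 ≤ r) (hS : 2 * S ≤ 2 ^ (2 ^ r)) (hB : 0 < B) (hL : 0 ≤ L) (hT : 0 < T)
    (hST : (S : ℝ) ≤ T) (hτ : 0 < τ) (hlam : 0 < lam) (hw : ∀ q, 0 ≤ w q) (hwB : ∀ q, w q ≤ B)
    (s : (Fin k → Fin u) → (Fin k × Fin u → Bool) → Z)
    (f g : (Fin k → Fin u) → (Fin k × Fin u → Bool) → Fin S → Bool) :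
    ∑ e, ∑ Y, val2 w (ζ (s e Y)) e α β (f e Y) (g e Y) Y ≤
      ((4 * τ + 8 * 2 ^ r / (τ * u) + 2 * (T * (k * u) * Real.exp (-L))) * (∑ q, w q) +
        4 * 2 ^ r / τ * (B * L * T) +
        lam * Real.log (Fintype.card Z) + VV u w / (2 * lam)) * ((u : ℝ) ^ k * 2 ^ (k * u)) := by
  have hu' : (0 : ℝ) < u := by exact_mod_cast hu
  set m := ∑ q, w q with hm
  have hm0 : 0 ≤ m := sum_nonneg fun q _ => hw q
  set K : ℝ := 2 ^ (k * u) with hK
  have hKpos : 0 < K := by positivity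
  have hcardY : ∀ c : ℝ, ∑ _Y : Fin k × Fin u → Bool, c = K * c := by
    intro c
    rw [Finset.sum_const, Finset.card_univ, Fintype.card_fun, Fintype.card_bool,
      Fintype.card_prod, Fintype.card_fin, Fintype.card_fin, nsmul_eq_mul, hK]
    push_cast
    rfl
  have hlogZ : 0 ≤ Real.log (Fintype.card Z) := Real.log_natCast_nonneg _
  set Mb : ℝ := 4 * τ * m + 4 * 2 ^ r / τ * (2 * m / u + B * L * T) +
        lam * Real.log (Fintype.card Z) with hMb
  have hMb0 : 0 ≤ Mb := by positivity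
  -- one map
  have h1 : ∀ e : Fin k → Fin u, ∑ Y, val2 w (ζ (s e Y)) e α β (f e Y) (g e Y) Y ≤
      (Mb + (∑ l, nl w e l ^ 2) / (2 * lam)) * K +
      (if GoodE w α B L e then 0 else m * K) + (if GoodE w β B L e then 0 else m * K) := by
    intro e
    have hq : 0 ≤ (∑ l, nl w e l ^ 2) / (2 * lam) := by positivity
    have htriv : ∑ Y, val2 w (ζ (s e Y)) e α β (f e Y) (g e Y) Y ≤ m * K := by
      refine (sum_le_sum fun Y _ => val2_le hw (hζ _) e α β (f e Y) (g e Y) Y).trans ?_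
      rw [hcardY, mul_comm]
    have hx : 0 ≤ (Mb + (∑ l, nl w e l ^ 2) / (2 * lam)) * K := by positivity
    have hmK : 0 ≤ m * K := by positivity
    by_cases ha : GoodE w α B L e
    · by_cases hb : GoodE w β B L e
      · rw [if_pos ha, if_pos hb, add_zero, add_zero]
        exact base_e hw ζ hζ e α β hu hr hS hB.le hL hT hST hτ hlam ha hb (s e) (f e) (g e)
      · rw [if_pos ha, if_neg hb]
        linarith
    · rw [if_neg ha]
      split_ifs <;> linarith
  refine (sum_le_sum fun e _ => h1 e).trans ?_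
  rw [sum_add_distrib, sum_add_distrib, ← sum_mul, sum_add_distrib]
  have hcarde : ((univ : Finset (Fin k → Fin u)).card : ℝ) = (u : ℝ) ^ k := by
    rw [Finset.card_univ, Fintype.card_fun, Fintype.card_fin, Fintype.card_fin]
    push_cast
    rfl
  have h2 : ∀ γ : Fin k × Fin k → Fin S, ∑ e : Fin k → Fin u, (if GoodE w γ B L e then 0 else m * K) ≤
      T * (k * u) * Real.exp (-L) * m * ((u : ℝ) ^ k * K) := by
    intro γ
    have h3 := bad_all hu w γ hB hw hwB L
    have h4 : ∑ e : Fin k → Fin u, (if GoodE w γ B L e then 0 else m * K) =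
        ((univ.filter fun e : Fin k → Fin u => ¬ GoodE w γ B L e).card : ℝ) * (m * K) := by
      rw [← nsmul_eq_mul, ← Finset.sum_const, Finset.sum_filter]
      refine sum_congr rfl fun e _ => ?_
      by_cases h5 : GoodE w γ B L e <;> simp [h5]
    rw [h4]
    calc _ ≤ (S * (k * u) * ((u : ℝ) ^ k * Real.exp (-L))) * (m * K) := by gcongr
      _ ≤ (T * (k * u) * ((u : ℝ) ^ k * Real.exp (-L))) * (m * K) := by gcongr
      _ = _ := by ring
  have h5 : ∑ e : Fin k → Fin u, (∑ l, nl w e l ^ 2) / (2 * lam) =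
      VV u w / (2 * lam) * (u : ℝ) ^ k := by
    unfold VV
    rw [← Finset.sum_div]
    field_simp
  have h6 : ∑ _e : Fin k → Fin u, Mb = Mb * (u : ℝ) ^ k := by
    rw [Finset.sum_const, nsmul_eq_mul, hcarde, mul_comm]
  rw [h5, h6]
  have h7 := h2 α
  have h8 := h2 β
  have h9 : Mb = 4 * τ * m + 8 * 2 ^ r / (τ * u) * m + 4 * 2 ^ r / τ * (B * L * T) +
      lam * Real.log (Fintype.card Z) := by
    rw [hMb]
    field_simp
    ring
  rw [h9]
  calc _ ≤ (4 * τ * m + 8 * 2 ^ r / (τ * u) * m + 4 * 2 ^ r / τ * (B * L * T) +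
        lam * Real.log (Fintype.card Z) + VV u w / (2 * lam)) * ((u : ℝ) ^ k * K) +
        T * (k * u) * Real.exp (-L) * m * ((u : ℝ) ^ k * K) +
        T * (k * u) * Real.exp (-L) * m * ((u : ℝ) ^ k * K) := by
        have : (4 * τ * m + 8 * 2 ^ r / (τ * u) * m + 4 * 2 ^ r / τ * (B * L * T) +
          lam * Real.log (Fintype.card Z)) * (u : ℝ) ^ k + VV u w / (2 * lam) * (u : ℝ) ^ k =
          (4 * τ * m + 8 * 2 ^ r / (τ * u) * m + 4 * 2 ^ r / τ * (B * L * T) +
          lam * Real.log (Fintype.card Z) + VV u w / (2 * lam)) * (u : ℝ) ^ k := by ring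
        rw [this]
        linarith
    _ = _ := by ring

end Pool.Agent.H34TP
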