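import Mathlib

set_option autoImplicit false

/-!
# Concentration on the discrete cube and the maximum of finitely many functions
-/

namespace Pool.Agent.H34TP

open Finset

/-- two values -/
theorem two_exp (a b c : ℝ) (h : |a - b| ≤ 2 * c) :
    Real.exp a + Real.exp b ≤ 2 * Real.exp ((a + b) / 2 + c ^ 2 / 2) := by
  have h1 : Real.exp a + Real.exp b = 2 * Real.exp ((a + b) / 2) * Real.cosh ((a - b) / 2) := by
    rw [Real.cosh_eq]
    have e1 : Real.exp a = Real.exp ((a + b) / 2) * Real.exp ((a - b) / 2) := by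
      rw [← Real.exp_add]; congr 1; ring
    have e2 : Real.exp b = Real.exp ((a + b) / 2) * Real.exp (-((a - b) / 2)) := by
      rw [← Real.exp_add]; congr 1; ring
    rw [e1, e2]
    ring
  have h2 : Real.cosh ((a - b) / 2) ≤ Real.exp (((a - b) / 2) ^ 2 / 2) := Real.cosh_le_exp_half_sq _
  have h3 : ((a - b) / 2) ^ 2 ≤ c ^ 2 := by
    have h4 : |(a - b) / 2| ≤ c := by
      rw [abs_div, abs_two]
      linarith
    calc ((a - b) / 2) ^ 2 = |(a - b) / 2| ^ 2 := (sq_abs _).symm
      _ ≤ c ^ 2 := by gcongr
  rw [h1, Real.exp_add, ← mul_assoc]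
  refine mul_le_mul_of_nonneg_left (h2.trans (Real.exp_le_exp.2 (by linarith))) (by positivity)

/-- the exponential moment, for `Fin n → Bool` -/
theorem mgf_fin : ∀ (n : ℕ) (f : (Fin n → Bool) → ℝ) (c : Fin n → ℝ),
    (∀ (y : Fin n → Bool) (l : Fin n),
      |f (Function.update y l true) - f (Function.update y l false)| ≤ 2 * c l) →
    ∑ y, Real.exp (f y) ≤ 2 ^ n * Real.exp ((∑ y, f y) / 2 ^ n + (∑ l, c l ^ 2) / 2) := by
  intro n
  induction n with
  | zero =>
    intro f c _
    simp
  | succ n ih =>
    intro f c hf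
    have hsplit : ∀ F : (Fin (n + 1) → Bool) → ℝ, ∑ y, F y =
        ∑ y : Fin n → Bool, (F (Fin.cons true y) + F (Fin.cons false y)) := by
      intro F
      rw [← (Fin.consEquiv (fun _ : Fin (n + 1) => Bool)).sum_comp, Fintype.sum_prod_type]
      simp only [Fintype.sum_bool]
      rw [← Finset.sum_add_distrib]
      rfl
    let g : (Fin n → Bool) → ℝ := fun y => (f (Fin.cons true y) + f (Fin.cons false y)) / 2
    have hg : ∀ (y : Fin n → Bool) (l : Fin n),
        |g (Function.update y l true) - g (Function.update y l false)| ≤ 2 * c l.succ := by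
      intro y l
      have h1 : ∀ b b' : Bool, (Fin.cons b (Function.update y l b') : Fin (n + 1) → Bool) =
          Function.update (Fin.cons b y : Fin (n + 1) → Bool) l.succ b' := by
        intro b b'
        rw [Fin.cons_update]
      have h2 := hf (Fin.cons true y) l.succ
      have h3 := hf (Fin.cons false y) l.succ
      rw [← h1, ← h1] at h2 h3
      rw [abs_le] at h2 h3 ⊢
      simp only [g]
      constructor <;> linarith [h2.1, h2.2, h3.1, h3.2]
    have h4 := ih g (fun l => c l.succ) hg
    have h5 : ∀ y : Fin n → Bool, Real.exp (f (Fin.cons true y)) + Real.exp (f (Fin.cons false y)) ≤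
        2 * Real.exp (c 0 ^ 2 / 2) * Real.exp (g y) := by
      intro y
      have h6 := hf (Fin.cons true y) 0
      have e1 : Function.update (Fin.cons true y : Fin (n + 1) → Bool) 0 true = Fin.cons true y := by
        rw [Fin.update_cons_zero]
      have e2 : Function.update (Fin.cons true y : Fin (n + 1) → Bool) 0 false = Fin.cons false y := by
        rw [Fin.update_cons_zero]
      rw [e1, e2] at h6
      refine (two_exp _ _ _ h6).trans (le_of_eq ?_)
      rw [Real.exp_add]
      simp only [g]
      ring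
    rw [hsplit, Fin.sum_univ_succ]
    refine (sum_le_sum fun y _ => h5 y).trans ?_
    rw [← mul_sum]
    have h7 : (∑ y, f y) / 2 ^ (n + 1) = (∑ y, g y) / 2 ^ n := by
      rw [hsplit]
      simp only [g]
      rw [← Finset.sum_div, pow_succ]
      field_simp
    rw [h7]
    calc 2 * Real.exp (c 0 ^ 2 / 2) * ∑ y, Real.exp (g y)
        ≤ 2 * Real.exp (c 0 ^ 2 / 2) * (2 ^ n * Real.exp ((∑ y, g y) / 2 ^ n +
          (∑ l : Fin n, c l.succ ^ 2) / 2)) := mul_le_mul_of_nonneg_left h4 (by positivity)
      _ = 2 ^ (n + 1) * Real.exp ((∑ y, g y) / 2 ^ n +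
          (c 0 ^ 2 + ∑ l : Fin n, c l.succ ^ 2) / 2) := by
        rw [show (∑ y, g y) / 2 ^ n + (c 0 ^ 2 + ∑ l : Fin n, c l.succ ^ 2) / 2 =
          c 0 ^ 2 / 2 + ((∑ y, g y) / 2 ^ n + (∑ l : Fin n, c l.succ ^ 2) / 2) by ring,
          Real.exp_add (c 0 ^ 2 / 2)]
        ring

/-- the exponential moment -/
theorem mgf {ι : Type} [Fintype ι] [DecidableEq ι] (f : (ι → Bool) → ℝ) (c : ι → ℝ)
    (hf : ∀ (y : ι → Bool) (l : ι),
      |f (Function.update y l true) - f (Function.update y l false)| ≤ 2 * c l) :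
    ∑ y, Real.exp (f y) ≤ 2 ^ (Fintype.card ι) *
      Real.exp ((∑ y, f y) / 2 ^ (Fintype.card ι) + (∑ l, c l ^ 2) / 2) := by
  let e := Fintype.equivFin ι
  let E : (Fin (Fintype.card ι) → Bool) ≃ (ι → Bool) := e.symm.arrowCongr (Equiv.refl Bool)
  have hE : ∀ y l, E y l = y (e l) := by
    intro y l
    simp [E, Equiv.arrowCongr]
  have h1 := mgf_fin (Fintype.card ι) (fun y => f (E y)) (fun l => c (e.symm l)) (by
    intro y l
    have h2 : ∀ b, E (Function.update y l b) = Function.update (E y) (e.symm l) b := by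
      intro b
      funext x
      rw [hE]
      by_cases hx : e x = l
      · have : x = e.symm l := by rw [← hx]; simp
        subst this
        simp
      · have : x ≠ e.symm l := by
          intro h; apply hx; rw [h]; simp
        rw [Function.update_of_ne hx, Function.update_of_ne this, hE]
    simp only [h2]
    exact hf _ _)
  rw [E.sum_comp (fun y => Real.exp (f y)), E.sum_comp (fun y => f y),
    e.symm.sum_comp (fun l => c l ^ 2)] at h1
  exact h1

/-- **The maximum of finitely many functions on the cube.** -/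
theorem max_bound {ι Z : Type} [Fintype ι] [DecidableEq ι] [Fintype Z] (G : Z → (ι → Bool) → ℝ)
    (c : ι → ℝ) (hG : ∀ (z : Z) (y : ι → Bool) (l : ι),
      |G z (Function.update y l true) - G z (Function.update y l false)| ≤ 2 * c l)
    {M lam : ℝ} (hM : ∀ z, ∑ y, G z y ≤ M * 2 ^ (Fintype.card ι)) (hlam : 0 < lam)
    (s : (ι → Bool) → Z) :
    ∑ y, G (s y) y ≤ (M + lam * Real.log (Fintype.card Z) + (∑ l, c l ^ 2) / (2 * lam)) *
      2 ^ (Fintype.card ι) := by
  classical
  set K : ℝ := 2 ^ (Fintype.card ι) with hK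
  have hKpos : 0 < K := by positivity
  have hZ : 0 < Fintype.card Z := Fintype.card_pos_iff.2 ⟨s fun _ => true⟩
  have hZ' : (0 : ℝ) < Fintype.card Z := by exact_mod_cast hZ
  set A : ℝ := Fintype.card Z * Real.exp ((∑ l, c l ^ 2) / (2 * lam ^ 2)) with hA
  have hApos : 0 < A := by positivity
  set μ : Z → ℝ := fun z => (∑ y, G z y) / K with hμ
  have hμM : ∀ z, μ z ≤ M := fun z => by
    rw [hμ]; simp only; rw [div_le_iff₀ hKpos]; exact hM z
  -- exponential moments
  have h1 : ∀ z, ∑ y, Real.exp ((G z y - μ z) / lam) ≤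
      K * Real.exp ((∑ l, c l ^ 2) / (2 * lam ^ 2)) := by
    intro z
    have h2 := mgf (fun y => (G z y - μ z) / lam) (fun l => c l / lam) (by
      intro y l
      have h3 := hG z y l
      have e1 : (G z (Function.update y l true) - μ z) / lam -
          (G z (Function.update y l false) - μ z) / lam =
          (G z (Function.update y l true) - G z (Function.update y l false)) / lam := by ring
      rw [e1, abs_div, abs_of_pos hlam, mul_div_assoc', div_le_div_iff_of_pos_right hlam]
      exact h3)
    have e2 : (∑ y, (G z y - μ z) / lam) = 0 := by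
      rw [← Finset.sum_div, Finset.sum_sub_distrib, Finset.sum_const, Finset.card_univ]
      have e3 : (Fintype.card (ι → Bool) : ℝ) = K := by
        rw [Fintype.card_fun, Fintype.card_bool, hK]
        push_cast
        rfl
      rw [nsmul_eq_mul, e3, hμ]
      field_simp
      ring
    have e4 : (∑ l, (c l / lam) ^ 2) / 2 = (∑ l, c l ^ 2) / (2 * lam ^ 2) := by
      simp only [div_pow]
      rw [← Finset.sum_div, div_div, mul_comm (lam ^ 2) 2]
    rw [e2, e4, zero_div, zero_add] at h2
    exact h2
  have h5 : ∑ y, Real.exp ((G (s y) y - μ (s y)) / lam) ≤ K * A := by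
    calc ∑ y, Real.exp ((G (s y) y - μ (s y)) / lam)
        ≤ ∑ y, ∑ z, Real.exp ((G z y - μ z) / lam) := by
          refine sum_le_sum fun y _ => ?_
          exact Finset.single_le_sum (f := fun z => Real.exp ((G z y - μ z) / lam))
            (fun z _ => (Real.exp_pos _).le) (mem_univ (s y))
      _ = ∑ z, ∑ y, Real.exp ((G z y - μ z) / lam) := sum_comm
      _ ≤ ∑ _z : Z, K * Real.exp ((∑ l, c l ^ 2) / (2 * lam ^ 2)) := sum_le_sum fun z _ => h1 z
      _ = K * A := by
          rw [Finset.sum_const, Finset.card_univ, nsmul_eq_mul, hA]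
          ring
  -- x ≤ log A - 1 + exp x / A
  have h6 : ∀ x : ℝ, x ≤ Real.log A - 1 + Real.exp x / A := by
    intro x
    have h7 := Real.add_one_le_exp (x - Real.log A)
    rw [Real.exp_sub, Real.exp_log hApos] at h7
    linarith
  have hcardy : (∑ _y : ι → Bool, (1 : ℝ)) = K := by
    rw [Finset.sum_const, Finset.card_univ, Fintype.card_fun, Fintype.card_bool, hK]
    simp
  have h8 : ∑ y, (G (s y) y - μ (s y)) / lam ≤ K * Real.log A := by
    calc ∑ y, (G (s y) y - μ (s y)) / lam
        ≤ ∑ y : ι → Bool, (Real.log A - 1 + Real.exp ((G (s y) y - μ (s y)) / lam) / A) :=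
          sum_le_sum fun y _ => h6 _
      _ = (Real.log A - 1) * (∑ _y : ι → Bool, (1 : ℝ)) +
          (∑ y, Real.exp ((G (s y) y - μ (s y)) / lam)) / A := by
          rw [Finset.sum_add_distrib, ← Finset.sum_div, mul_sum]
          simp
      _ ≤ (Real.log A - 1) * K + K * A / A := by
          rw [hcardy]
          gcongr
      _ = K * Real.log A := by
          field_simp
          ring
  have hlogA : Real.log A = Real.log (Fintype.card Z) + (∑ l, c l ^ 2) / (2 * lam ^ 2) := by
    rw [hA, Real.log_mul hZ'.ne' (Real.exp_pos _).ne', Real.log_exp]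
  have h9 : ∑ y, G (s y) y = lam * ∑ y, (G (s y) y - μ (s y)) / lam + ∑ y, μ (s y) := by
    rw [← Finset.sum_div, Finset.sum_sub_distrib]
    field_simp
    ring
  have h10 : ∑ y, μ (s y) ≤ M * K := by
    calc ∑ y, μ (s y) ≤ ∑ _y : ι → Bool, M := sum_le_sum fun y _ => hμM _
      _ = M * K := by rw [← hcardy, mul_sum]; simp
  rw [h9]
  calc lam * ∑ y, (G (s y) y - μ (s y)) / lam + ∑ y, μ (s y)
      ≤ lam * (K * Real.log A) + M * K := add_le_add (mul_le_mul_of_nonneg_left h8 hlam.le) h10
    _ = (M + lam * Real.log (Fintype.card Z) + (∑ l, c l ^ 2) / (2 * lam)) * K := by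
        rw [hlogA]
        field_simp
        ring

end Pool.Agent.H34TP
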