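import Pool.Agent.H34TP.Par
import Pool.Agent.R563.TP.Sum

set_option autoImplicit false

/-!
# From the bound for decision trees to 3SUM-Indexing
-/

namespace Pool.Agent.H34TP

open Finset Pool.Agent.R563.TP Pool.Agent.R563.TP.SumP
open scoped Classical

/-- For all arrays of `n` integers from `{0, …, n ^ 3}` and all `z`, the random data structure
`D` (with probabilities `p`) decides with at most `t` probes whether `z` is the sum of an element of
the first array and an element of the second array, correctly with probability at least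
`1 / 2 + δ`. -/
def SolvesT {n S W : ℕ} {Ω : Type} [Fintype Ω] (t : ℕ) (p : Ω → ℝ) (D : Ω → SumDS n S W)
    (δ : ℝ) : Prop :=
  (∀ ω, 0 ≤ p ω) ∧ ∑ ω, p ω = 1 ∧
    ∀ A₁ A₂ : Fin n → ℕ, (∀ i, A₁ i ≤ n ^ 3) → (∀ i, A₂ i ≤ n ^ 3) → ∀ z : ℕ,
      1 / 2 + δ ≤ ∑ ω with (((D ω).query z).out ((D ω).memory A₁ A₂) = true ↔
          ∃ i j, A₁ i + A₂ j = z) ∧
        ((D ω).query z).probes ((D ω).memory A₁ A₂) ≤ t, p ω

theorem sg_self (b : Bool) : sg b * sg b = 1 := by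
  cases b <;> norm_num [sg]

theorem sg_ge (a b : Bool) : -1 ≤ sg a * sg b := by
  cases a <;> cases b <;> norm_num [sg]

theorem advantage {Ω : Type} [Fintype Ω] {p s : Ω → ℝ} {δ : ℝ} (P : Ω → Prop) [DecidablePred P]
    (hp : ∀ ω, 0 ≤ p ω) (hp1 : ∑ ω, p ω = 1) (hs : ∀ ω, -1 ≤ s ω) (hs1 : ∀ ω, P ω → s ω = 1)
    (h : 1 / 2 + δ ≤ ∑ ω with P ω, p ω) : 2 * δ ≤ ∑ ω, p ω * s ω := by
  have h1 : ∑ ω, (2 * (if P ω then p ω else 0) - p ω) ≤ ∑ ω, p ω * s ω := by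
    refine sum_le_sum fun ω _ => ?_
    by_cases h2 : P ω
    · rw [if_pos h2, hs1 ω h2]
      linarith
    · rw [if_neg h2]
      have := mul_le_mul_of_nonneg_left (hs ω) (hp ω)
      linarith
  rw [sum_sub_distrib, ← mul_sum, hp1, ← sum_filter] at h1
  linarith

theorem main (n N S W : ℕ) (δ : ℝ) (hN : 2 ≤ N) (hS : 1 ≤ S) (hW : 1 ≤ W) (hδ : 0 < δ)
    (hδ2 : δ ≤ 1 / 2) (Ω : Type) [Fintype Ω] (p : Ω → ℝ) (D : Ω → SumDS N S W)
    (hD : SolvesT (n + 2) p D δ) :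
    δ ^ (3 * (n + 2)) * (N : ℝ) ^ (n + 2) ≤
      (10 * ((n : ℝ) + 2)) ^ (6 * (n + 2)) * ((S : ℝ) + N) ^ (n + 1) *
      (W : ℝ) ^ (3 * (n + 2) ^ 2) * (Real.logb 2 (N / δ)) ^ 4 := by
  by_contra hcon
  rw [not_le] at hcon
  obtain ⟨k, u, r, L, T, τ, lam, θ, n0, ps, Q, hk, hu, hku, hr, hSr, hL, hT, hST, hτ, hlam, hθ, hn0,
    hps, hps1, hps2, hQ, hfin⟩ := params N S W n δ hN hS hW hδ hδ2 hcon
  obtain ⟨hp0, hp1, hgood⟩ := hD
  let s0 : Fin S := ⟨0, hS⟩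
  have hb : ∀ ω : Ω, ∑ e : Fin k → Fin u, ∑ Y : Fin k × Fin u → Bool, ∑ q : Fin k × Fin k,
      sg (Y (cls e q)) * tval s0 (n + 2) ((D ω).query (qz k u q.1 q.2))
        ((D ω).memory (arr1 N k u e) (arr2 N k u (fun j c => Y (j, c)))) ≤
      (W : ℝ) ^ (n + 2) * Q * ((u : ℝ) ^ k * 2 ^ (k * u)) := by
    intro ω
    exact tree_bound s0 hu hr hSr hL hT hST hτ hlam hθ hn0 hps hps1 hps2 hQ
      (fun q => (D ω).query (qz k u q.1 q.2))
      (fun e Y => (D ω).memory (arr1 N k u e) (arr2 N k u (fun j c => Y (j, c))))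
  have hlow : ∀ (e : Fin k → Fin u) (Y : Fin k × Fin u → Bool) (q : Fin k × Fin k),
      2 * δ ≤ ∑ ω, p ω * (sg (Y (cls e q)) * tval s0 (n + 2) ((D ω).query (qz k u q.1 q.2))
        ((D ω).memory (arr1 N k u e) (arr2 N k u (fun j c => Y (j, c))))) := by
    intro e Y q
    refine advantage _ hp0 hp1 ?_ ?_ (hgood (arr1 N k u e) (arr2 N k u (fun j c => Y (j, c)))
      (arr1_le hk hu hku e) (arr2_le hk hu hku _) (qz k u q.1 q.2))
    · intro ω
      obtain ⟨b, hb⟩ := tval_sg s0 ((D ω).memory (arr1 N k u e) (arr2 N k u (fun j c => Y (j, c))))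
        (n + 2) ((D ω).query (qz k u q.1 q.2))
      rw [hb]
      exact sg_ge _ _
    · rintro ω ⟨h1, h2⟩
      rw [tval_eq s0 _ (n + 2) _ h2]
      rw [sum_iff hk hu hku] at h1
      have h3 : ((D ω).query (qz k u q.1 q.2)).out
          ((D ω).memory (arr1 N k u e) (arr2 N k u (fun j c => Y (j, c)))) = Y (cls e q) :=
        Bool.eq_iff_iff.2 h1
      rw [h3]
      exact sg_self _
  have hsum : ∑ ω, p ω * (∑ e : Fin k → Fin u, ∑ Y : Fin k × Fin u → Bool, ∑ q : Fin k × Fin k,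
      sg (Y (cls e q)) * tval s0 (n + 2) ((D ω).query (qz k u q.1 q.2))
        ((D ω).memory (arr1 N k u e) (arr2 N k u (fun j c => Y (j, c))))) =
      ∑ e : Fin k → Fin u, ∑ Y : Fin k × Fin u → Bool, ∑ q : Fin k × Fin k, ∑ ω,
      p ω * (sg (Y (cls e q)) * tval s0 (n + 2) ((D ω).query (qz k u q.1 q.2))
        ((D ω).memory (arr1 N k u e) (arr2 N k u (fun j c => Y (j, c))))) := by
    simp only [mul_sum]
    rw [sum_comm]
    refine sum_congr rfl fun e _ => ?_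
    rw [sum_comm]
    refine sum_congr rfl fun Y _ => ?_
    rw [sum_comm]
  have hup : ∑ ω, p ω * (∑ e : Fin k → Fin u, ∑ Y : Fin k × Fin u → Bool, ∑ q : Fin k × Fin k,
      sg (Y (cls e q)) * tval s0 (n + 2) ((D ω).query (qz k u q.1 q.2))
        ((D ω).memory (arr1 N k u e) (arr2 N k u (fun j c => Y (j, c))))) ≤
      (W : ℝ) ^ (n + 2) * Q * ((u : ℝ) ^ k * 2 ^ (k * u)) := by
    calc _ ≤ ∑ ω, p ω * ((W : ℝ) ^ (n + 2) * Q * ((u : ℝ) ^ k * 2 ^ (k * u))) :=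
          sum_le_sum fun ω _ => mul_le_mul_of_nonneg_left (hb ω) (hp0 ω)
      _ = _ := by rw [← sum_mul, hp1, one_mul]
  have hlo : 2 * δ * (k : ℝ) ^ 2 * ((u : ℝ) ^ k * 2 ^ (k * u)) ≤
      ∑ e : Fin k → Fin u, ∑ Y : Fin k × Fin u → Bool, ∑ q : Fin k × Fin k, ∑ ω,
      p ω * (sg (Y (cls e q)) * tval s0 (n + 2) ((D ω).query (qz k u q.1 q.2))
        ((D ω).memory (arr1 N k u e) (arr2 N k u (fun j c => Y (j, c))))) := by
    calc 2 * δ * (k : ℝ) ^ 2 * ((u : ℝ) ^ k * 2 ^ (k * u)) =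
        ∑ e : Fin k → Fin u, ∑ Y : Fin k × Fin u → Bool, ∑ q : Fin k × Fin k, 2 * δ := by
          simp only [sum_const, card_univ, Fintype.card_prod, Fintype.card_fun, Fintype.card_fin,
            Fintype.card_bool, nsmul_eq_mul]
          push_cast
          ring
      _ ≤ _ := sum_le_sum fun e _ => sum_le_sum fun Y _ => sum_le_sum fun q _ => hlow e Y q
  rw [hsum] at hup
  have hpos : (0 : ℝ) < (u : ℝ) ^ k * 2 ^ (k * u) := by
    have : (0 : ℝ) < u := by exact_mod_cast hu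
    positivity
  have h9 := mul_lt_mul_of_pos_right hfin hpos
  linarith

end Pool.Agent.H34TP
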