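import Pool.Agent.H34TP.Tree

set_option autoImplicit false

/-!
# Choice of the parameters
-/

namespace Pool.Agent.H34TP

open Finset

theorem DD_le {D0 T n0 ps lam θ : ℝ} (hD0 : 0 ≤ D0) (hT : 0 ≤ T) (hps : 0 < ps) (hps1 : ps ≤ 1)
    (hlθ : 0 < lam * θ) : ∀ (n : ℕ) (B : ℝ), 0 ≤ B →
    DD D0 T n0 ps lam θ n B ≤ n * (T * n0) + (n * (T / (2 * (lam * θ))) + D0) * (B / ps ^ n) := by
  intro n
  induction n with
  | zero =>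
    intro B _
    simp [DD]
  | succ n ih =>
    intro B hB
    have h1 := ih (B / ps) (by positivity)
    have h2 : DD D0 T n0 ps lam θ (n + 1) B = T * n0 + DD D0 T n0 ps lam θ n (B / ps) +
      T * B / (2 * lam * θ) := rfl
    rw [h2]
    have h3 : B / ps / ps ^ n = B / ps ^ (n + 1) := by
      rw [div_div, pow_succ']
    rw [h3] at h1
    have h4 : B ≤ B / ps ^ (n + 1) := by
      rw [le_div_iff₀ (by positivity)]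
      exact mul_le_of_le_one_right hB (pow_le_one₀ hps.le hps1)
    have h5 : T * B / (2 * lam * θ) ≤ T / (2 * (lam * θ)) * (B / ps ^ (n + 1)) := by
      have h6 : T * B / (2 * lam * θ) = T / (2 * (lam * θ)) * B := by
        rw [mul_assoc 2 lam θ]; ring
      rw [h6]
      exact mul_le_mul_of_nonneg_left h4 (by positivity)
    push_cast
    linarith

theorem const_le (t : ℕ) (ht : 2 ≤ t) :
    4 * ((t : ℝ) ^ 2 + 192) ^ 3 * (864 * (t : ℝ) ^ 3) ^ t ≤ (10 * (t : ℝ)) ^ (6 * t) := by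
  have ht' : (2 : ℝ) ≤ t := by exact_mod_cast ht
  have h1 : (t : ℝ) ^ 2 + 192 ≤ 49 * (t : ℝ) ^ 2 := by nlinarith
  have h2 : 4 * ((t : ℝ) ^ 2 + 192) ^ 3 ≤ (1000 * (t : ℝ) ^ 3) ^ t := by
    calc 4 * ((t : ℝ) ^ 2 + 192) ^ 3 ≤ 4 * (49 * (t : ℝ) ^ 2) ^ 3 := by gcongr
      _ = 470596 * ((t : ℝ) ^ 3) ^ 2 := by ring
      _ ≤ 1000000 * ((t : ℝ) ^ 3) ^ 2 := by gcongr; norm_num
      _ = (1000 * (t : ℝ) ^ 3) ^ 2 := by ring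
      _ ≤ (1000 * (t : ℝ) ^ 3) ^ t := by
        apply pow_le_pow_right₀ _ ht
        have : (1 : ℝ) ≤ (t : ℝ) ^ 3 := one_le_pow₀ (by linarith)
        linarith
  calc 4 * ((t : ℝ) ^ 2 + 192) ^ 3 * (864 * (t : ℝ) ^ 3) ^ t
      ≤ (1000 * (t : ℝ) ^ 3) ^ t * (864 * (t : ℝ) ^ 3) ^ t := by gcongr
    _ = (864000 * (t : ℝ) ^ 6) ^ t := by rw [← mul_pow]; congr 1; ring
    _ ≤ (1000000 * (t : ℝ) ^ 6) ^ t := by gcongr; norm_num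
    _ = (10 * (t : ℝ)) ^ (6 * t) := by rw [pow_mul]; congr 1; ring

theorem star_a (n : ℕ) (η u k : ℝ) :
    η ^ (3 * (n + 2)) * (4 * u * k) ^ (n + 2) =
      (η ^ 2 * k ^ 2 * (η ^ 3 * (u * k)) ^ n) * (4 ^ (n + 2) * (η ^ 4 * u ^ 2)) := by
  have h1 : η ^ (3 * (n + 2)) = (η ^ 3) ^ n * η ^ 6 := by
    rw [show 3 * (n + 2) = 3 * n + 6 by ring, pow_add, pow_mul]
  have h2 : (4 * u * k) ^ (n + 2) = 4 ^ (n + 2) * (u * k) ^ n * (u ^ 2 * k ^ 2) := by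
    rw [show (4 : ℝ) * u * k = 4 * (u * k) by ring, mul_pow, pow_add (u * k) n 2, mul_pow u k 2]
    ring
  rw [h1, h2, mul_pow (η ^ 3) (u * k) n]
  ring

theorem star_b (n : ℕ) {N T R L Λ J η ε u k : ℝ} (hN0 : 0 ≤ N) (hN : N ≤ 4 * u * k)
    (hu : 0 < u) (hk : 0 < k) (hη : 0 < η) (hΛ : 0 < Λ) (hT : 0 < T) (hJ : 0 < J) (hR : 0 < R)
    (hL : 0 ≤ L)
    (hJt : J ≤ (n : ℝ) + 2) (hJ1 : 1 ≤ J) (hε : ε = 6 * η)
    (hu2 : η ^ 2 * u ≤ 2 * (8 * R + J ^ 2))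
    (h8R : 8 * R + J ^ 2 ≤ (((n : ℝ) + 2) ^ 2 + 192) * Λ)
    (e2 : ((n : ℝ) * J / 2 + 4 * R * L) ≤ (((n : ℝ) + 2) ^ 2 + 192) * Λ ^ 2)
    (h1 : (10 * ((n : ℝ) + 2)) ^ (6 * (n + 2)) * T ^ (n + 1) * Λ ^ 4 <
      ε ^ (3 * (n + 2)) * N ^ (n + 2)) :
    ((n : ℝ) * J / 2 + 4 * R * L) * T * (J ^ 3 * T) ^ n ≤ η ^ 2 * k ^ 2 * (η ^ 3 * (u * k)) ^ n := by
  obtain ⟨t, ht⟩ : ∃ t : ℝ, t = (n : ℝ) + 2 := ⟨_, rfl⟩
  have ht0 : (0 : ℝ) < t := by rw [ht]; positivity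
  have ht1 : (1 : ℝ) ≤ t := by
    rw [ht]
    linarith [(Nat.cast_nonneg n : (0 : ℝ) ≤ n)]
  rw [← ht] at hJt h8R e2 h1
  have e7 := const_le (n + 2) (by omega)
  have ht' : ((n + 2 : ℕ) : ℝ) = t := by rw [ht]; push_cast; ring
  rw [ht'] at e7
  obtain ⟨Cc, hCc⟩ : ∃ c : ℝ, c = (10 * t) ^ (6 * (n + 2)) := ⟨_, rfl⟩
  rw [← hCc] at e7 h1
  -- the left side
  have e3 : ((n : ℝ) * J / 2 + 4 * R * L) * T * (J ^ 3 * T) ^ n ≤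
      (t ^ 2 + 192) * Λ ^ 2 * t ^ (3 * (n + 2)) * T ^ (n + 1) := by
    have f1 : (J ^ 3 * T) ^ n = J ^ (3 * n) * T ^ n := by rw [mul_pow, ← pow_mul]
    have f2 : J ^ (3 * n) ≤ t ^ (3 * (n + 2)) := by
      calc J ^ (3 * n) ≤ t ^ (3 * n) := by gcongr
        _ ≤ t ^ (3 * (n + 2)) := pow_le_pow_right₀ ht1 (by omega)
    rw [f1]
    calc ((n : ℝ) * J / 2 + 4 * R * L) * T * (J ^ (3 * n) * T ^ n) =
        ((n : ℝ) * J / 2 + 4 * R * L) * J ^ (3 * n) * T ^ (n + 1) := by ring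
      _ ≤ ((t ^ 2 + 192) * Λ ^ 2) * t ^ (3 * (n + 2)) * T ^ (n + 1) := by gcongr
  refine e3.trans ?_
  -- the right side
  obtain ⟨X, hX⟩ : ∃ X : ℝ, X = η ^ 2 * k ^ 2 * (η ^ 3 * (u * k)) ^ n := ⟨_, rfl⟩
  have hX0 : 0 < X := by rw [hX]; positivity
  rw [← hX]
  have e4 : η ^ (3 * (n + 2)) * N ^ (n + 2) ≤ X * (4 ^ (n + 2) * (4 * (8 * R + J ^ 2) ^ 2)) := by
    have f2 : η ^ 4 * u ^ 2 ≤ 4 * (8 * R + J ^ 2) ^ 2 := by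
      calc η ^ 4 * u ^ 2 = (η ^ 2 * u) ^ 2 := by ring
        _ ≤ (2 * (8 * R + J ^ 2)) ^ 2 := by gcongr
        _ = _ := by ring
    calc η ^ (3 * (n + 2)) * N ^ (n + 2) ≤ η ^ (3 * (n + 2)) * (4 * u * k) ^ (n + 2) := by gcongr
      _ = X * (4 ^ (n + 2) * (η ^ 4 * u ^ 2)) := by rw [star_a, hX]
      _ ≤ _ := by gcongr
  have e6 : Cc * T ^ (n + 1) * Λ ^ 4 <
      6 ^ (3 * (n + 2)) * (X * (4 ^ (n + 2) * (4 * ((t ^ 2 + 192) * Λ) ^ 2))) := by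
    calc Cc * T ^ (n + 1) * Λ ^ 4 < ε ^ (3 * (n + 2)) * N ^ (n + 2) := h1
      _ = 6 ^ (3 * (n + 2)) * (η ^ (3 * (n + 2)) * N ^ (n + 2)) := by
        rw [hε, mul_pow, mul_assoc]
      _ ≤ 6 ^ (3 * (n + 2)) * (X * (4 ^ (n + 2) * (4 * (8 * R + J ^ 2) ^ 2))) := by gcongr
      _ ≤ _ := by gcongr
  have e8 : 4 * (t ^ 2 + 192) ^ 3 * (864 * t ^ 3) ^ (n + 2) =
      (6 ^ (3 * (n + 2)) * 4 ^ (n + 2) * 4 * (t ^ 2 + 192) ^ 2) *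
        ((t ^ 2 + 192) * t ^ (3 * (n + 2))) := by
    have g1 : (864 * t ^ 3) ^ (n + 2) = 6 ^ (3 * (n + 2)) * 4 ^ (n + 2) * t ^ (3 * (n + 2)) := by
      rw [mul_pow, ← pow_mul, pow_mul 6 3 (n + 2), ← mul_pow]
      norm_num
    rw [g1]
    generalize (6 : ℝ) ^ (3 * (n + 2)) = a
    generalize (4 : ℝ) ^ (n + 2) = b
    generalize t ^ (3 * (n + 2)) = c
    ring
  rw [e8] at e7
  generalize hP : T ^ (n + 1) = P at e6 ⊢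
  have hP0 : 0 < P := by rw [← hP]; positivity
  generalize hc6 : (6 : ℝ) ^ (3 * (n + 2)) = c6 at e6 e7
  generalize hc4 : (4 : ℝ) ^ (n + 2) = c4 at e6 e7
  generalize hct : t ^ (3 * (n + 2)) = ct at e7 ⊢
  have hc60 : 0 < c6 := by rw [← hc6]; positivity
  have hc40 : 0 < c4 := by rw [← hc4]; positivity
  obtain ⟨G, hG⟩ : ∃ G : ℝ, G = c6 * c4 * 4 * (t ^ 2 + 192) ^ 2 := ⟨_, rfl⟩
  have hG0 : 0 < G := by rw [hG]; positivity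
  rw [← hG] at e7
  have e9 : G * ((t ^ 2 + 192) * ct) * P * Λ ^ 4 < G * (X * Λ ^ 2) := by
    calc G * ((t ^ 2 + 192) * ct) * P * Λ ^ 4 ≤ Cc * P * Λ ^ 4 := by gcongr
      _ < c6 * (X * (c4 * (4 * ((t ^ 2 + 192) * Λ) ^ 2))) := e6
      _ = G * (X * Λ ^ 2) := by rw [hG]; ring
  have e10 : (G * Λ ^ 2) * ((t ^ 2 + 192) * Λ ^ 2 * ct * P) < (G * Λ ^ 2) * X := by
    calc _ = G * ((t ^ 2 + 192) * ct) * P * Λ ^ 4 := by ring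
      _ < G * (X * Λ ^ 2) := e9
      _ = _ := by ring
  exact (lt_of_mul_lt_mul_left e10 (by positivity)).le

theorem e2_aux {n J t R L Λ : ℝ} (hn : 0 ≤ n) (hnt : n ≤ t) (hJ0 : 0 ≤ J) (hJ : J ≤ t)
    (hΛ : 1 ≤ Λ) (hR0 : 0 ≤ R) (hR : R ≤ 6 * Λ) (hL : L = 8 * Λ) :
    (n * J / 2 + 4 * R * L) ≤ (t ^ 2 + 192) * Λ ^ 2 := by
  have ht0 : 0 ≤ t := hn.trans hnt
  have f1 : n * J ≤ t ^ 2 := by
    calc n * J ≤ t * t := by gcongr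
      _ = t ^ 2 := by ring
  have g1 : (1 : ℝ) ≤ Λ ^ 2 := one_le_pow₀ hΛ
  have f2 : t ^ 2 * 1 ≤ t ^ 2 * Λ ^ 2 := by gcongr
  have f3 : 4 * R * L ≤ 192 * Λ ^ 2 := by
    rw [hL]
    calc 4 * R * (8 * Λ) ≤ 4 * (6 * Λ) * (8 * Λ) := by gcongr
      _ = 192 * Λ ^ 2 := by ring
  have f4 : 0 ≤ n * J := by positivity
  have f5 : (t ^ 2 + 192) * Λ ^ 2 = t ^ 2 * Λ ^ 2 + 192 * Λ ^ 2 := by ring
  rw [f5]
  linarith

theorem A0_aux {η R J u k T L N δ U0 : ℝ} (hη : 0 < η) (hu : 0 < u) (hk : 0 < k)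
    (hU : η ^ 2 * U0 = 8 * R + J ^ 2) (hu1 : U0 ≤ u) (hkuN : k * u ≤ N) (hT : 0 < T)
    (hTN2 : T ≤ N ^ 2) (hN : 2 ≤ N) (hδ : 0 < δ) (hδ2 : δ ≤ 1 / 2)
    (hexp : Real.exp (-L) ≤ (δ / N) ^ 8) (h6 : 1 ≤ 6 * η * N) :
    4 * η + 8 * R / (η * u) + 2 * (T * (k * u) * Real.exp (-L)) ≤ 6 * η := by
  have hN0 : 0 < N := by linarith
  have e1 : 8 * R / (η * u) ≤ η := by
    rw [div_le_iff₀ (by positivity)]
    have e2 : 8 * R ≤ η ^ 2 * U0 := by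
      rw [hU]
      have : 0 ≤ J ^ 2 := by positivity
      linarith
    calc 8 * R ≤ η ^ 2 * U0 := e2
      _ ≤ η ^ 2 * u := by gcongr
      _ = η * (η * u) := by ring
  have e3 : 2 * (T * (k * u) * Real.exp (-L)) ≤ η := by
    have e6 : 2 * (T * (k * u) * Real.exp (-L)) ≤ 2 * (N ^ 2 * N * (δ / N) ^ 8) := by
      gcongr
    have e7 : 2 * (N ^ 2 * N * (δ / N) ^ 8) = 2 * δ ^ 8 / N ^ 5 := by
      field_simp
    have e8 : 2 * δ ^ 8 / N ^ 5 ≤ 1 / (6 * N) := by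
      rw [div_le_div_iff₀ (by positivity) (by positivity)]
      have e9 : δ ^ 8 ≤ (1 / 2) ^ 8 := by gcongr
      have e10 : (16 : ℝ) ≤ N ^ 4 := by
        calc (16 : ℝ) = 2 ^ 4 := by norm_num
          _ ≤ N ^ 4 := by gcongr
      have e11 : N ^ 5 = N ^ 4 * N := by ring
      rw [e11]
      calc 2 * δ ^ 8 * (6 * N) ≤ 2 * (1 / 2) ^ 8 * (6 * N) := by gcongr
        _ ≤ 1 * (16 * N) := by linarith
        _ ≤ 1 * (N ^ 4 * N) := by gcongr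
    have e12 : 1 / (6 * N) ≤ η := by
      rw [div_le_iff₀ (by positivity)]
      linarith
    linarith
  linarith

theorem AA_aux {A0 η ηj J u lam θ U0 : ℝ} {n uu : ℕ} (huu : (uu : ℝ) = u) (hη : 0 < η) (hJ : 0 < J)
    (hηj : ηj = η / J) (hJ2 : J ^ 2 ≤ η ^ 2 * U0) (hu1 : U0 ≤ u) (hu : 0 < u)
    (hlθ : lam * θ = ηj) (hn : (n : ℝ) * ηj ≤ η) (hA0 : A0 ≤ 6 * η) :
    AA A0 lam θ uu n ≤ 8 * η := by
  have hηjpos : 0 < ηj := by rw [hηj]; positivity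
  unfold AA
  have e1 : 2 * lam * θ = 2 * ηj := by rw [mul_assoc, hlθ]
  rw [hlθ, e1, huu]
  have e2 : 1 / (2 * ηj * u) ≤ ηj := by
    rw [div_le_iff₀ (by positivity)]
    have e4 : J ^ 2 ≤ η ^ 2 * u := hJ2.trans (by gcongr)
    have e5 : η ^ 2 = ηj ^ 2 * J ^ 2 := by rw [hηj]; field_simp
    rw [e5] at e4
    have e6 : 1 ≤ ηj ^ 2 * u := by
      have e7 : J ^ 2 * 1 ≤ J ^ 2 * (ηj ^ 2 * u) := by linarith
      exact le_of_mul_le_mul_left e7 (by positivity)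
    have e8 : ηj * (2 * ηj * u) = 2 * (ηj ^ 2 * u) := by ring
    rw [e8]
    linarith
  have e8 : (n : ℝ) * (ηj + 1 / (2 * ηj * u)) ≤ 2 * η := by
    have hn0' : (0 : ℝ) ≤ n := Nat.cast_nonneg _
    have := mul_le_mul_of_nonneg_left e2 hn0'
    linarith
  linarith

theorem DD_aux {n : ℕ} {R η L T n0 ps lam θ ηj J k : ℝ} (hR : 0 < R) (hη : 0 < η) (hL : 0 ≤ L)
    (hT : 0 < T) (hps : 0 < ps) (hps1 : ps ≤ 1) (hJ : 0 < J) (hηj : ηj = η / J)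
    (hlθ : lam * θ = ηj) (hTn0 : T * n0 = ηj * k ^ 2) (hn : (n : ℝ) * ηj ≤ η)
    (hstar : ((n : ℝ) * J / 2 + 4 * R * L) * T ≤ η ^ 2 * k ^ 2 * ps ^ n) :
    DD (4 * R / η * (L * T)) T n0 ps lam θ n 1 ≤ 2 * η * k ^ 2 := by
  have hηjpos : 0 < ηj := by rw [hηj]; positivity
  have e1 := DD_le (D0 := 4 * R / η * (L * T)) (T := T) (n0 := n0) (ps := ps) (lam := lam)
    (θ := θ) (by positivity) hT.le hps hps1 (by rw [hlθ]; exact hηjpos) n 1 zero_le_one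
  rw [hTn0, hlθ] at e1
  have e2 : (n : ℝ) * (ηj * k ^ 2) ≤ η * k ^ 2 := by
    rw [← mul_assoc]
    gcongr
  have e3 : ((n : ℝ) * (T / (2 * ηj)) + 4 * R / η * (L * T)) * (1 / ps ^ n) ≤
      η * k ^ 2 := by
    rw [mul_one_div, div_le_iff₀ (by positivity)]
    have e4 : (n : ℝ) * (T / (2 * ηj)) + 4 * R / η * (L * T) =
        ((n : ℝ) * J / 2 + 4 * R * L) * T / η := by
      rw [hηj]; field_simp
    rw [e4, div_le_iff₀ hη]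
    calc _ ≤ η ^ 2 * k ^ 2 * ps ^ n := hstar
      _ = _ := by ring
  linarith

theorem VV_aux {k u η ηj lam : ℝ} (hk : 0 < k) (hu : 0 < u) (huk : u ≤ k) (hηj : 0 < ηj)
    (hηjη : ηj ≤ η) (hlam : lam = k / (ηj * u)) :
    (k ^ 2 + k ^ 3 / u) / (2 * lam) ≤ η * k ^ 2 := by
  have e1 : (k ^ 2 + k ^ 3 / u) / (2 * lam) = ηj * (k * u + k ^ 2) / 2 := by
    rw [hlam]; field_simp
  rw [e1]
  have e2 : k * u ≤ k ^ 2 := by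
    rw [pow_two]
    gcongr
  calc ηj * (k * u + k ^ 2) / 2 ≤ ηj * (k ^ 2 + k ^ 2) / 2 := by gcongr
    _ = ηj * k ^ 2 := by ring
    _ ≤ η * k ^ 2 := by gcongr

/-- the second half of the choice of the parameters -/
theorem params2 (n k u r S N : ℕ) {T η J R L Λ ε U0 δ W' : ℝ} (hknat : 1 ≤ k) (hunat : 1 ≤ u)
    (hku : k * (u + 1) ≤ N) (hr0 : 1 ≤ r) (hSR : 2 * S ≤ 2 ^ (2 ^ r)) (hR : R = 2 ^ r)
    (hΛ : 2 ≤ Λ) (hL : L = 8 * Λ) (hN : 2 ≤ N) (hST : (S : ℝ) ≤ T) (hNT : (N : ℝ) ≤ T)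
    (hTN2 : T ≤ (N : ℝ) ^ 2) (hη : 0 < η) (hη1 : η ≤ 1) (hJ : J = (n : ℝ) + 1)
    (hU : η ^ 2 * U0 = 8 * R + J ^ 2) (hu1 : U0 ≤ u) (hu2 : (u : ℝ) ≤ 2 * U0)
    (hN4 : (N : ℝ) ≤ 4 * u * k) (huk : (u : ℝ) ≤ k) (hδ : 0 < δ) (hδ2 : δ ≤ 1 / 2)
    (hexp : Real.exp (-L) ≤ (δ / N) ^ 8) (h6 : 1 ≤ 6 * η * N) (hr2 : R ≤ 6 * Λ)
    (hε : ε = 6 * η) (hW' : 0 < W') (hεW : W' * ε = δ)
    (h1 : (10 * ((n : ℝ) + 2)) ^ (6 * (n + 2)) * T ^ (n + 1) * Λ ^ 4 <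
      ε ^ (3 * (n + 2)) * (N : ℝ) ^ (n + 2)) :
    ∃ (k u r : ℕ) (L T τ lam θ n0 ps Q : ℝ), 1 ≤ k ∧ 1 ≤ u ∧ k * (u + 1) ≤ N ∧ 1 ≤ r ∧
      2 * S ≤ 2 ^ (2 ^ r) ∧ 0 ≤ L ∧ 0 < T ∧ (S : ℝ) ≤ T ∧ 0 < τ ∧ 0 < lam ∧ 0 < θ ∧ 0 < n0 ∧
      0 < ps ∧ ps ≤ 1 ∧ ps ≤ θ * n0 ∧
      AA (4 * τ + 8 * 2 ^ r / (τ * u) + 2 * (T * (k * u) * Real.exp (-L))) lam θ u n *
          (k : ℝ) ^ 2 + DD (4 * 2 ^ r / τ * (L * T)) T n0 ps lam θ n 1 +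
          ((k : ℝ) ^ 2 + (k : ℝ) ^ 3 / u) / (2 * lam) ≤ Q ∧
      W' * Q < 2 * δ * (k : ℝ) ^ 2 := by
  have hn2 : (2 : ℝ) ≤ N := by exact_mod_cast hN
  have hk_pos : (0 : ℝ) < k := by exact_mod_cast hknat
  have hu_pos : (0 : ℝ) < u := by exact_mod_cast hunat
  have hTpos : 0 < T := by linarith
  have hn0' : (0 : ℝ) ≤ n := Nat.cast_nonneg _
  have hJ1 : 1 ≤ J := by rw [hJ]; linarith
  have hJpos : 0 < J := by linarith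
  have hRpos : 0 < R := by rw [hR]; positivity
  have hLpos : 0 ≤ L := by rw [hL]; linarith
  have hkuN : (k : ℝ) * u ≤ N := by
    have e1 : k * u ≤ N := le_trans (Nat.mul_le_mul_left _ (by omega)) hku
    exact_mod_cast e1
  obtain ⟨ηj, hηj⟩ : ∃ x : ℝ, x = η / J := ⟨_, rfl⟩
  have hηjpos : 0 < ηj := by rw [hηj]; positivity
  have hηjη : ηj ≤ η := by rw [hηj]; exact div_le_self hη.le hJ1
  have hnηj : (n : ℝ) * ηj ≤ η := by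
    rw [hηj, mul_div_assoc', div_le_iff₀ hJpos, hJ]
    have : (n : ℝ) * η ≤ (n + 1) * η := by gcongr; linarith
    linarith
  obtain ⟨θ, hθ⟩ : ∃ x : ℝ, x = ηj ^ 2 * u / k := ⟨_, rfl⟩
  have hθpos : 0 < θ := by rw [hθ]; positivity
  obtain ⟨lam, hlam⟩ : ∃ x : ℝ, x = k / (ηj * u) := ⟨_, rfl⟩
  have hlampos : 0 < lam := by rw [hlam]; positivity
  have hlθ : lam * θ = ηj := by
    rw [hlam, hθ]; field_simp
  obtain ⟨n0, hn0⟩ : ∃ x : ℝ, x = ηj * (k : ℝ) ^ 2 / T := ⟨_, rfl⟩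
  have hn0pos : 0 < n0 := by rw [hn0]; positivity
  have hTn0 : T * n0 = ηj * (k : ℝ) ^ 2 := by rw [hn0]; field_simp
  obtain ⟨ps, hps⟩ : ∃ x : ℝ, x = θ * n0 := ⟨_, rfl⟩
  have hpspos : 0 < ps := by rw [hps]; positivity
  have hps_eq : ps = η ^ 3 * (u * k) / (J ^ 3 * T) := by
    rw [hps, hθ, hn0, hηj]; field_simp
  have hps1 : ps ≤ 1 := by
    rw [hps_eq, div_le_one (by positivity)]
    have e1 : η ^ 3 ≤ 1 := pow_le_one₀ hη.le hη1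
    have e2 : 1 ≤ J ^ 3 := one_le_pow₀ hJ1
    have e3 : (u : ℝ) * k ≤ T := by linarith
    calc η ^ 3 * (u * k) ≤ 1 * (u * k) := by gcongr
      _ ≤ 1 * T := by gcongr
      _ ≤ J ^ 3 * T := by gcongr
  refine ⟨k, u, r, L, T, η, lam, θ, n0, ps, 11 * η * (k : ℝ) ^ 2, hknat, hunat, hku, hr0, hSR,
    hLpos, hTpos, hST, hη, hlampos, hθpos, hn0pos, hpspos, hps1, hps.le, ?_, ?_⟩
  swap
  · have e1 : W' * (11 * η * (k : ℝ) ^ 2) = 11 / 6 * (δ * (k : ℝ) ^ 2) := by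
      rw [← hεW, hε]; ring
    rw [e1]
    have : 0 < δ * (k : ℝ) ^ 2 := by positivity
    linarith
  have hJ2 : J ^ 2 ≤ η ^ 2 * U0 := by rw [hU]; linarith
  rw [← hR]
  have hA0 := A0_aux (R := R) (J := J) (L := L) hη hu_pos hk_pos hU hu1 hkuN hTpos hTN2 hn2 hδ hδ2
    hexp h6
  have hAA := AA_aux (n := n) (uu := u) rfl hη hJpos hηj hJ2 hu1 hu_pos hlθ hnηj hA0
  have hJt : J ≤ (n : ℝ) + 2 := by linarith
  have h8R : 8 * R + J ^ 2 ≤ (((n : ℝ) + 2) ^ 2 + 192) * Λ := by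
    have f1 : J ^ 2 ≤ ((n : ℝ) + 2) ^ 2 := by gcongr
    have f2 : ((n : ℝ) + 2) ^ 2 * 1 ≤ ((n : ℝ) + 2) ^ 2 * Λ := by gcongr; linarith
    have f3 : (((n : ℝ) + 2) ^ 2 + 192) * Λ = ((n : ℝ) + 2) ^ 2 * Λ + 192 * Λ := by ring
    rw [f3]
    linarith
  have e2 : ((n : ℝ) * J / 2 + 4 * R * L) ≤ (((n : ℝ) + 2) ^ 2 + 192) * Λ ^ 2 :=
    e2_aux hn0' (by linarith) hJpos.le hJt (by linarith) hRpos.le hr2 hL
  have g1 : η ^ 2 * (u : ℝ) ≤ 2 * (8 * R + J ^ 2) := by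
    calc η ^ 2 * (u : ℝ) ≤ η ^ 2 * (2 * U0) := by gcongr
      _ = 2 * (8 * R + J ^ 2) := by rw [← hU]; ring
  have hs0 := star_b n (by linarith) hN4 hu_pos hk_pos hη (by linarith) hTpos hJpos hRpos hLpos hJt
      hJ1 hε g1 h8R e2 h1
  have hstar : ((n : ℝ) * J / 2 + 4 * R * L) * T ≤ η ^ 2 * (k : ℝ) ^ 2 * ps ^ n := by
    have e1 : ps ^ n = (η ^ 3 * (u * k)) ^ n / (J ^ 3 * T) ^ n := by rw [hps_eq, div_pow]
    rw [e1, mul_div_assoc', le_div_iff₀ (by positivity)]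
    exact hs0
  have hDD := DD_aux (k := (k : ℝ)) hRpos hη hLpos hTpos hpspos hps1 hJpos hηj hlθ hTn0 hnηj hstar
  have hVV := VV_aux hk_pos hu_pos huk hηjpos hηjη hlam
  have hfin : AA (4 * η + 8 * R / (η * u) + 2 * (T * (k * u) * Real.exp (-L))) lam θ u n *
      (k : ℝ) ^ 2 ≤ 8 * η * (k : ℝ) ^ 2 := by gcongr
  linarith

theorem U0_aux {R J ε Λ N Cc U0 u t η : ℝ} (hε : 0 < ε) (hε1 : ε ≤ 1) (hη : η = ε / 6)
    (hU0 : U0 = (8 * R + J ^ 2) / η ^ 2) (hR : 0 < R) (hR6 : R ≤ 6 * Λ) (hJ0 : 0 ≤ J) (hJt : J ≤ t)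
    (ht2 : 2 ≤ t) (hΛ : 2 ≤ Λ) (hu0 : 0 ≤ u) (hu2 : u ≤ 2 * U0) (hCc : 10 ^ 12 * t ^ 12 ≤ Cc)
    (hN : 0 ≤ N) (h3 : Cc * Λ ^ 4 < ε ^ 6 * N) : 4 * u ^ 2 ≤ N := by
  have h8R : 8 * R + J ^ 2 ≤ (t ^ 2 + 192) * Λ := by
    have e1 : J ^ 2 ≤ t ^ 2 := by gcongr
    have e2 : t ^ 2 * 1 ≤ t ^ 2 * Λ := by gcongr; linarith
    have e3 : (t ^ 2 + 192) * Λ = t ^ 2 * Λ + 192 * Λ := by ring
    rw [e3]
    linarith
  have hU0pos : 0 ≤ U0 := by rw [hU0, hη]; positivity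
  have e1 : u ^ 2 ≤ (2 * U0) ^ 2 := by gcongr
  have e2 : (2 * U0) ^ 2 = 5184 * (8 * R + J ^ 2) ^ 2 / ε ^ 4 := by
    rw [hU0, hη]; field_simp; ring
  have e4 : t ^ 2 + 192 ≤ 49 * t ^ 2 := by nlinarith
  have e3 : (8 * R + J ^ 2) ^ 2 ≤ (49 * t ^ 2 * Λ) ^ 2 := by
    have e5 : 8 * R + J ^ 2 ≤ 49 * t ^ 2 * Λ := h8R.trans (by gcongr)
    gcongr
  have e6 : 4 * (5184 * (49 * t ^ 2 * Λ) ^ 2 / ε ^ 4) ≤ N := by
    rw [mul_div_assoc', div_le_iff₀ (by positivity)]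
    have e7 : 4 * (5184 * (49 * t ^ 2 * Λ) ^ 2) = 49787136 * (t ^ 4 * Λ ^ 2) := by ring
    rw [e7]
    have e8 : t ^ 4 ≤ t ^ 12 := pow_le_pow_right₀ (by linarith) (by norm_num)
    have e9 : Λ ^ 2 ≤ Λ ^ 4 := pow_le_pow_right₀ (by linarith) (by norm_num)
    have e10 : 49787136 * (t ^ 4 * Λ ^ 2) ≤ Cc * Λ ^ 4 := by
      calc 49787136 * (t ^ 4 * Λ ^ 2) ≤ 10 ^ 12 * (t ^ 12 * Λ ^ 4) := by
            gcongr; norm_num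
        _ = 10 ^ 12 * t ^ 12 * Λ ^ 4 := by ring
        _ ≤ Cc * Λ ^ 4 := by gcongr
    have e11 : ε ^ 6 * N ≤ N * ε ^ 4 := by
      have : ε ^ 6 ≤ ε ^ 4 := pow_le_pow_of_le_one hε.le hε1 (by norm_num)
      rw [mul_comm N]
      gcongr
    linarith
  calc 4 * u ^ 2 ≤ 4 * (2 * U0) ^ 2 := by gcongr
    _ = 4 * (5184 * (8 * R + J ^ 2) ^ 2 / ε ^ 4) := by rw [e2]
    _ ≤ 4 * (5184 * (49 * t ^ 2 * Λ) ^ 2 / ε ^ 4) := by gcongr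
    _ ≤ N := e6

/-- the choice of the parameters -/
theorem params (N S W n : ℕ) (δ : ℝ) (hN : 2 ≤ N) (_hS : 1 ≤ S) (hW : 1 ≤ W) (hδ : 0 < δ)
    (hδ2 : δ ≤ 1 / 2)
    (h : (10 * ((n : ℝ) + 2)) ^ (6 * (n + 2)) * ((S : ℝ) + N) ^ (n + 1) *
      (W : ℝ) ^ (3 * (n + 2) ^ 2) * (Real.logb 2 (N / δ)) ^ 4 <
      δ ^ (3 * (n + 2)) * (N : ℝ) ^ (n + 2)) :
    ∃ (k u r : ℕ) (L T τ lam θ n0 ps Q : ℝ), 1 ≤ k ∧ 1 ≤ u ∧ k * (u + 1) ≤ N ∧ 1 ≤ r ∧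
      2 * S ≤ 2 ^ (2 ^ r) ∧ 0 ≤ L ∧ 0 < T ∧ (S : ℝ) ≤ T ∧ 0 < τ ∧ 0 < lam ∧ 0 < θ ∧ 0 < n0 ∧
      0 < ps ∧ ps ≤ 1 ∧ ps ≤ θ * n0 ∧
      AA (4 * τ + 8 * 2 ^ r / (τ * u) + 2 * (T * (k * u) * Real.exp (-L))) lam θ u n *
          (k : ℝ) ^ 2 + DD (4 * 2 ^ r / τ * (L * T)) T n0 ps lam θ n 1 +
          ((k : ℝ) ^ 2 + (k : ℝ) ^ 3 / u) / (2 * lam) ≤ Q ∧
      (W : ℝ) ^ (n + 2) * Q < 2 * δ * (k : ℝ) ^ 2 := by
  set Λ := Real.logb 2 (N / δ) with hΛ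
  set t : ℕ := n + 2 with ht
  have htR : ((n : ℝ) + 2) = (t : ℝ) := by rw [ht]; push_cast; ring
  rw [htR] at h
  have ht2 : 2 ≤ t := by omega
  have ht2' : (2 : ℝ) ≤ t := by exact_mod_cast ht2
  have hn2 : (2 : ℝ) ≤ N := by exact_mod_cast hN
  have hw1 : (1 : ℝ) ≤ W := by exact_mod_cast hW
  have hS0 : (0 : ℝ) ≤ S := Nat.cast_nonneg _
  have hnδ : 0 < (N : ℝ) / δ := by positivity
  have h4 : (4 : ℝ) ≤ N / δ := by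
    rw [le_div_iff₀ hδ]; nlinarith
  have hL2 : 2 ≤ Λ := by
    rw [hΛ, Real.le_logb_iff_rpow_le (by norm_num) hnδ]
    have : (2 : ℝ) ^ (2 : ℝ) = 4 := by
      rw [show (2 : ℝ) = ((2 : ℕ) : ℝ) by norm_num, Real.rpow_natCast]; norm_num
    rw [this]
    exact h4
  have hNδ : (N : ℝ) ≤ N / δ := by
    rw [le_div_iff₀ hδ]; nlinarith
  have hpow3 : (2 : ℝ) ^ (3 * Λ) = (N / δ) ^ 3 := by
    rw [mul_comm, Real.rpow_mul (by norm_num), hΛ, Real.rpow_logb (by norm_num) (by norm_num) hnδ]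
    exact_mod_cast Real.rpow_natCast (N / δ) 3
  have hexp0 : (δ / N) ^ 8 = (2 : ℝ) ^ (-(8 * Λ)) := by
    rw [Real.rpow_neg (by norm_num), mul_comm, Real.rpow_mul (by norm_num), hΛ,
      Real.rpow_logb (by norm_num) (by norm_num) hnδ]
    have : ((N : ℝ) / δ) ^ (8 : ℝ) = ((N : ℝ) / δ) ^ 8 := by
      exact_mod_cast Real.rpow_natCast ((N : ℝ) / δ) 8
    rw [this, ← inv_pow, inv_div]
  clear_value Λ
  -- step 1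
  set T : ℝ := (S : ℝ) + N with hT
  have hST : (S : ℝ) ≤ T := by rw [hT]; linarith
  clear_value T
  have hTN : (N : ℝ) ≤ T := by linarith
  have hTpos : 0 < T := by linarith
  obtain ⟨ε, hε⟩ : ∃ ε : ℝ, ε = δ / (W : ℝ) ^ t := ⟨_, rfl⟩
  have hWt : (0 : ℝ) < (W : ℝ) ^ t := by positivity
  have hεpos : 0 < ε := by rw [hε]; positivity
  have hε1 : ε ≤ 1 / 2 := by
    rw [hε]
    calc δ / (W : ℝ) ^ t ≤ δ := div_le_self hδ.le (one_le_pow₀ hw1)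
      _ ≤ 1 / 2 := hδ2
  obtain ⟨Cc, hCc⟩ : ∃ c : ℝ, c = (10 * (t : ℝ)) ^ (6 * t) := ⟨_, rfl⟩
  rw [← hCc] at h
  have hCc12 : 10 ^ 12 * (t : ℝ) ^ 12 ≤ Cc := by
    rw [hCc]
    calc 10 ^ 12 * (t : ℝ) ^ 12 = (10 * (t : ℝ)) ^ 12 := by ring
      _ ≤ (10 * (t : ℝ)) ^ (6 * t) := by
        apply pow_le_pow_right₀ (by linarith) (by omega)
  have ht12 : (1 : ℝ) ≤ (t : ℝ) ^ 12 := one_le_pow₀ (by linarith)
  have hCc1 : 1 ≤ Cc := by nlinarith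
  have hΛ4 : 1 ≤ Λ ^ 4 := one_le_pow₀ (by linarith)
  have h1 : Cc * T ^ (n + 1) * Λ ^ 4 < ε ^ (3 * t) * (N : ℝ) ^ t := by
    have e1 : ε ^ (3 * t) = δ ^ (3 * t) / (W : ℝ) ^ (3 * t ^ 2) := by
      rw [hε, div_pow, ← pow_mul]
      congr 2
      ring
    rw [e1, div_mul_eq_mul_div, lt_div_iff₀ (by positivity)]
    calc Cc * T ^ (n + 1) * Λ ^ 4 * (W : ℝ) ^ (3 * t ^ 2) =
        Cc * T ^ (n + 1) * (W : ℝ) ^ (3 * t ^ 2) * Λ ^ 4 := by ring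
      _ < _ := h
  -- step 2
  have hε3t : ε ^ (3 * t) ≤ 1 := pow_le_one₀ hεpos.le (by linarith)
  have hTN2 : T < (N : ℝ) ^ 2 := by
    have e1 : T ^ (n + 1) < (N : ℝ) ^ t := by
      have e2 : T ^ (n + 1) ≤ Cc * T ^ (n + 1) * Λ ^ 4 := by
        have : 0 < T ^ (n + 1) := by positivity
        have e3 : 1 * T ^ (n + 1) * 1 ≤ Cc * T ^ (n + 1) * Λ ^ 4 := by gcongr
        linarith
      have e4 : ε ^ (3 * t) * (N : ℝ) ^ t ≤ 1 * (N : ℝ) ^ t := by gcongr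
      linarith
    have e5 : (N : ℝ) ^ t ≤ ((N : ℝ) ^ 2) ^ (n + 1) := by
      rw [← pow_mul]
      apply pow_le_pow_right₀ (by linarith)
      omega
    exact lt_of_pow_lt_pow_left₀ (n + 1) (by positivity) (lt_of_lt_of_le e1 e5)
  -- step 3
  have h3 : Cc * Λ ^ 4 < ε ^ 6 * N := by
    have e1 : Cc * (N : ℝ) ^ (n + 1) * Λ ^ 4 < ε ^ (3 * t) * (N : ℝ) ^ t := by
      refine lt_of_le_of_lt ?_ h1
      gcongr
    have e2 : (N : ℝ) ^ t = (N : ℝ) ^ (n + 1) * N := by rw [ht, pow_succ]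
    rw [e2] at e1
    have e3 : ε ^ (3 * t) ≤ ε ^ 6 := pow_le_pow_of_le_one hεpos.le (by linarith) (by omega)
    have e4 : (N : ℝ) ^ (n + 1) * (Cc * Λ ^ 4) < (N : ℝ) ^ (n + 1) * (ε ^ (3 * t) * N) := by
      calc (N : ℝ) ^ (n + 1) * (Cc * Λ ^ 4) = Cc * (N : ℝ) ^ (n + 1) * Λ ^ 4 := by ring
        _ < ε ^ (3 * t) * ((N : ℝ) ^ (n + 1) * N) := e1
        _ = _ := by ring
    have e5 := lt_of_mul_lt_mul_left e4 (by positivity)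
    refine lt_of_lt_of_le e5 ?_
    gcongr
  -- step 4
  have h5 : 1 ≤ ε * N := by
    have e1 : ε ^ 6 ≤ ε := by
      calc ε ^ 6 ≤ ε ^ 1 := pow_le_pow_of_le_one hεpos.le (by linarith) (by norm_num)
        _ = ε := pow_one ε
    have e2 : ε ^ 6 * N ≤ ε * N := by gcongr
    nlinarith
  -- step 5
  have hex : ∃ r : ℕ, 3 * Λ ≤ (2 : ℝ) ^ r := by
    obtain ⟨r, hr⟩ := pow_unbounded_of_one_lt (3 * Λ) (by norm_num : (1 : ℝ) < 2)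
    exact ⟨r, hr.le⟩
  classical
  obtain ⟨r, hr1, hrm⟩ : ∃ r : ℕ, 3 * Λ ≤ (2 : ℝ) ^ r ∧ ∀ m < r, ¬ 3 * Λ ≤ (2 : ℝ) ^ m :=
    ⟨Nat.find hex, Nat.find_spec hex, fun m hm => Nat.find_min hex hm⟩
  have hr0 : 1 ≤ r := by
    by_contra hcon
    have e0 : r = 0 := by omega
    rw [e0] at hr1
    norm_num at hr1
    linarith
  have hr2 : (2 : ℝ) ^ r < 6 * Λ := by
    have e1 : ¬ 3 * Λ ≤ (2 : ℝ) ^ (r - 1) := hrm _ (by omega)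
    rw [not_le] at e1
    have e2 : (2 : ℝ) ^ r = 2 * 2 ^ (r - 1) := by
      rw [← pow_succ']
      congr 1
      omega
    rw [e2]
    linarith
  obtain ⟨R, hR⟩ : ∃ R : ℝ, R = (2 : ℝ) ^ r := ⟨_, rfl⟩
  rw [← hR] at hr2
  have hSR0 : 3 * Λ ≤ (((2 ^ r : ℕ)) : ℝ) := by push_cast; exact hr1
  have hRpos : 0 < R := by rw [hR]; positivity
  have hSR : 2 * S ≤ 2 ^ (2 ^ r) := by
    have e2 : ((2 * S : ℕ) : ℝ) ≤ (2 : ℝ) ^ (2 ^ r) := by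
      calc ((2 * S : ℕ) : ℝ) = 2 * (S : ℝ) := by push_cast; ring
        _ ≤ N * (N : ℝ) ^ 2 := by
          have : (S : ℝ) ≤ (N : ℝ) ^ 2 := by linarith
          nlinarith
        _ = (N : ℝ) ^ 3 := by ring
        _ ≤ (N / δ) ^ 3 := by gcongr
        _ = (2 : ℝ) ^ (3 * Λ) := hpow3.symm
        _ ≤ (2 : ℝ) ^ (((2 ^ r : ℕ)) : ℝ) :=
            Real.rpow_le_rpow_of_exponent_le (by norm_num) hSR0
        _ = (2 : ℝ) ^ (2 ^ r) := Real.rpow_natCast _ _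
    exact_mod_cast e2
  -- step 6
  obtain ⟨η, hη⟩ : ∃ η : ℝ, η = ε / 6 := ⟨_, rfl⟩
  have hηpos : 0 < η := by rw [hη]; positivity
  have hη1 : η ≤ 1 := by rw [hη]; linarith
  obtain ⟨J, hJ⟩ : ∃ J : ℝ, J = (n : ℝ) + 1 := ⟨_, rfl⟩
  have hJ1 : 1 ≤ J := by rw [hJ]; linarith [(Nat.cast_nonneg n : (0 : ℝ) ≤ n)]
  have hJpos : 0 < J := by linarith
  have hJt : J ≤ t := by rw [hJ, ← htR]; linarith
  obtain ⟨U0, hU0⟩ : ∃ U0 : ℝ, U0 = (8 * R + J ^ 2) / η ^ 2 := ⟨_, rfl⟩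
  have hU0pos : 0 < U0 := by rw [hU0]; positivity
  have hU01 : 1 ≤ U0 := by
    rw [hU0, le_div_iff₀ (by positivity)]
    have e1 : η ^ 2 ≤ 1 := pow_le_one₀ hηpos.le hη1
    have e2 : 1 ≤ J ^ 2 := one_le_pow₀ hJ1
    linarith
  obtain ⟨u, hu⟩ : ∃ u : ℕ, u = ⌈U0⌉₊ := ⟨_, rfl⟩
  have hu1 : U0 ≤ u := by rw [hu]; exact Nat.le_ceil _
  have hu2 : (u : ℝ) ≤ 2 * U0 := by
    have : (u : ℝ) < U0 + 1 := by rw [hu]; exact Nat.ceil_lt_add_one hU0pos.le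
    linarith
  have huR1 : (1 : ℝ) ≤ u := by linarith
  have hu_pos : (0 : ℝ) < u := by linarith
  have hunat : 1 ≤ u := by exact_mod_cast huR1
  have hUU : η ^ 2 * U0 = 8 * R + J ^ 2 := by rw [hU0]; field_simp
  -- step 7
  have hN4u : 4 * (u : ℝ) ^ 2 ≤ N :=
    U0_aux hεpos (by linarith) hη hU0 hRpos hr2.le hJpos.le hJt ht2' hL2 hu_pos.le hu2 hCc12
      (by linarith) h3
  obtain ⟨k, hk⟩ : ∃ k : ℕ, k = N / (u + 1) := ⟨_, rfl⟩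
  have hku : k * (u + 1) ≤ N := by rw [hk]; exact Nat.div_mul_le_self _ _
  have hkN : (N : ℝ) ≤ 4 * u * k := by
    have e1 : N < (k + 1) * (u + 1) := by
      have := Nat.lt_div_mul_add (a := N) (b := u + 1) (by omega)
      rw [← hk] at this
      calc N < k * (u + 1) + (u + 1) := this
        _ = (k + 1) * (u + 1) := by ring
    have e2 : (N : ℝ) < (k + 1) * (u + 1) := by exact_mod_cast e1
    have e3 : (N : ℝ) < (k + 1) * (2 * u) := by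
      refine lt_of_lt_of_le e2 ?_
      gcongr
      linarith
    have e4 : (2 : ℝ) * u ≤ N / 2 := by
      have e5 : (u : ℝ) * 1 ≤ u * u := by gcongr
      have e6 : (u : ℝ) ^ 2 = u * u := by ring
      rw [e6] at hN4u
      linarith
    have e7 : ((k : ℝ) + 1) * (2 * u) = 2 * u * k + 2 * u := by ring
    rw [e7] at e3
    linarith
  have huk : (u : ℝ) ≤ k := by
    have e1 : 4 * (u : ℝ) * u ≤ 4 * u * k := by
      have : 4 * (u : ℝ) * u = 4 * (u : ℝ) ^ 2 := by ring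
      rw [this]
      linarith
    exact le_of_mul_le_mul_left e1 (by positivity)
  have hknat : 1 ≤ k := by
    have : (1 : ℝ) ≤ k := by linarith
    exact_mod_cast this
  obtain ⟨L, hL⟩ : ∃ x : ℝ, x = 8 * Λ := ⟨_, rfl⟩
  have hexp : Real.exp (-L) ≤ (δ / N) ^ 8 := by
    rw [hexp0, Real.rpow_def_of_pos (by norm_num), hL]
    apply Real.exp_le_exp.2
    have h2 := Real.log_two_lt_d9
    have h3 : Real.log 2 * (8 * Λ) ≤ 1 * (8 * Λ) := by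
      gcongr
      linarith
    linarith
  rw [hCc, ← htR] at h1
  have h6 : 1 ≤ 6 * η * N := by
    rw [hη]
    linarith
  have hεW : (W : ℝ) ^ (n + 2) * ε = δ := by
    rw [hε, ← ht]; field_simp
  exact params2 n k u r S N (U0 := U0) hknat hunat hku hr0 hSR hR hL2 hL hN hST hTN hTN2.le hηpos hη1
    hJ hUU hu1 hu2 hkN huk hδ hδ2 hexp h6 hr2.le (by rw [hη]; ring) hWt hεW h1

end Pool.Agent.H34TP
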