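import Pool.Agent.H34TP.Samp

set_option autoImplicit false

/-!
# The recursion on the number of probes
-/

namespace Pool.Agent.H34TP

open Finset Pool.Agent.R563.TP
open scoped Classical

/-- the sum for `n` probes -/
noncomputable def valN {k u S : ℕ} (n : ℕ) (w ζ : Fin k × Fin k → ℝ) (e : Fin k → Fin u)
    (α : Fin n → Fin k × Fin k → Fin S) (x : Fin n → Fin S → Bool) (Y : Fin k × Fin u → Bool) : ℝ :=
  ∑ q, w q * ζ q * sg (Y (cls e q)) * ∏ i, ind (x i (α i q))

theorem valN_two {k u S : ℕ} (w ζ : Fin k × Fin k → ℝ) (e : Fin k → Fin u)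
    (α : Fin 2 → Fin k × Fin k → Fin S) (x : Fin 2 → Fin S → Bool) (Y : Fin k × Fin u → Bool) :
    valN 2 w ζ e α x Y = val2 w ζ e (α 0) (α 1) (x 0) (x 1) Y := by
  unfold valN val2
  refine sum_congr rfl fun q _ => ?_
  rw [Fin.prod_univ_two]

/-- the sampling probabilities -/
noncomputable def pp {S : ℕ} (θ n0 : ℝ) (d : Fin S → ℝ) (a : Fin S) : ℝ :=
  if d a < n0 then 0 else min 1 (θ * d a)

theorem pp_zero {S : ℕ} {θ n0 : ℝ} (hθ : 0 < θ) (hn : 0 < n0) (d : Fin S → ℝ) (a : Fin S) :
    pp θ n0 d a = 0 ↔ d a < n0 := by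
  unfold pp
  constructor
  · intro h
    by_contra hc
    rw [if_neg hc] at h
    have h1 : 0 < min 1 (θ * d a) := lt_min one_pos (mul_pos hθ (lt_of_lt_of_le hn (not_lt.1 hc)))
    linarith
  · intro h
    rw [if_pos h]

theorem pp_nonneg {S : ℕ} {θ n0 : ℝ} (hθ : 0 < θ) (hn : 0 < n0) (d : Fin S → ℝ) (a : Fin S) :
    0 ≤ pp θ n0 d a := by
  unfold pp
  split_ifs with h
  · exact le_rfl
  · exact le_min zero_le_one (mul_pos hθ (lt_of_lt_of_le hn (not_lt.1 h))).le

theorem pp_le_one {S : ℕ} {θ n0 : ℝ} (d : Fin S → ℝ) (a : Fin S) : pp θ n0 d a ≤ 1 := by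
  unfold pp
  split_ifs with h
  · norm_num
  · exact min_le_left _ _

theorem pp_ge {S : ℕ} {θ n0 ps : ℝ} (hθ : 0 < θ) (hps1 : ps ≤ 1) (hps2 : ps ≤ θ * n0)
    (d : Fin S → ℝ) (a : Fin S) (h : ¬ d a < n0) : ps ≤ pp θ n0 d a := by
  unfold pp
  rw [if_neg h]
  exact le_min hps1 (hps2.trans (mul_le_mul_of_nonneg_left (not_lt.1 h) hθ.le))

theorem pp_le {S : ℕ} {θ n0 : ℝ} (hθ : 0 < θ) (d : Fin S → ℝ) (hd : ∀ a, 0 ≤ d a) (a : Fin S) :
    pp θ n0 d a ≤ θ * d a := by
  unfold pp
  split_ifs with h
  · exact mul_nonneg hθ.le (hd a)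
  · exact min_le_right _ _

theorem dd_pp {S : ℕ} {θ n0 : ℝ} (hθ : 0 < θ) (hn : 0 < n0) (d : Fin S → ℝ) (a : Fin S) :
    dd (pp θ n0 d) a * d a ≤ 1 / θ := by
  have h1θ : 0 < 1 / θ := by positivity
  unfold dd
  split_ifs with h
  · rw [zero_mul]; exact h1θ.le
  · have h1 : ¬ d a < n0 := fun h2 => h ((pp_zero hθ hn d a).2 h2)
    have hda : 0 < d a := lt_of_lt_of_le hn (not_lt.1 h1)
    have h2 : pp θ n0 d a = min 1 (θ * d a) := by unfold pp; rw [if_neg h1]
    rw [h2]
    rcases le_total 1 (θ * d a) with h3 | h3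
    · rw [min_eq_left h3]
      simp only [div_one, sub_self, zero_mul]
      exact h1θ.le
    · rw [min_eq_right h3]
      have h4 : (1 / (θ * d a) - 1) * d a = 1 / θ - d a := by field_simp
      rw [h4]
      linarith

/-- the coefficient of the weight -/
noncomputable def AA (A0 lam θ : ℝ) (u : ℕ) (n : ℕ) : ℝ :=
  A0 + n * (lam * θ + 1 / (2 * lam * θ * u))

/-- the error term -/
noncomputable def DD (D0 T n0 ps lam θ : ℝ) : ℕ → ℝ → ℝ
  | 0, B => D0 * B
  | n + 1, B => T * n0 + DD D0 T n0 ps lam θ n (B / ps) + T * B / (2 * lam * θ)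

/-- patterns on a set of cells -/
noncomputable def zC {k S : ℕ} {Z : Type} (ζ : Z → Fin k × Fin k → ℝ) (α : Fin k × Fin k → Fin S)
    (C : Fin S → Bool) (y : Z × ({a // C a = true} → Bool)) (q : Fin k × Fin k) : ℝ :=
  ζ y.1 q * if h : C (α q) = true then ind (y.2 ⟨α q, h⟩) else 0

theorem zC_abs {k S : ℕ} {Z : Type} {ζ : Z → Fin k × Fin k → ℝ} (hζ : ∀ z q, |ζ z q| ≤ 1)
    (α : Fin k × Fin k → Fin S) (C : Fin S → Bool) (y : Z × ({a // C a = true} → Bool))
    (q : Fin k × Fin k) : |zC ζ α C y q| ≤ 1 := by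
  unfold zC
  rw [abs_mul]
  refine mul_le_one₀ (hζ _ _) (abs_nonneg _) ?_
  split_ifs
  · rw [abs_of_nonneg (ind_nonneg _)]; exact ind_le _
  · simp

theorem card_C {S : ℕ} (C : Fin S → Bool) :
    (Fintype.card {a // C a = true} : ℝ) = ∑ a, ind (C a) := by
  rw [Fintype.card_subtype, Finset.card_filter]
  push_cast
  refine sum_congr rfl fun a _ => ?_
  unfold ind
  split_ifs <;> rfl

/-- one step -/
theorem step_pt {k u S n : ℕ} {w : Fin k × Fin k → ℝ} (hw : ∀ q, 0 ≤ w q) {Z : Type}
    {ζ : Z → Fin k × Fin k → ℝ} (hζ : ∀ z q, |ζ z q| ≤ 1) (e : Fin k → Fin u)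
    (α : Fin (n + 1) → Fin k × Fin k → Fin S) (x : Fin (n + 1) → Fin S → Bool)
    (Y : Fin k × Fin u → Bool) (z : Z) (p : Fin S → ℝ) :
    valN (n + 1) w (ζ z) e α x Y ≤ (∑ q, if p (α 0 q) = 0 then w q else 0) +
      ∑ C, mu p C * valN n (fun q => w q * cw p (α 0) C q) (zC ζ (α 0) C (z, fun a => x 0 a.1)) e
        (fun i => α i.succ) (fun i => x i.succ) Y := by
  have h1 : ∑ C, mu p C * valN n (fun q => w q * cw p (α 0) C q)
        (zC ζ (α 0) C (z, fun a => x 0 a.1)) e (fun i => α i.succ) (fun i => x i.succ) Y =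
      ∑ q, (if p (α 0 q) = 0 then 0 else 1) *
        (w q * ζ z q * sg (Y (cls e q)) * ∏ i, ind (x i (α i q))) := by
    unfold valN
    simp only [mul_sum]
    rw [sum_comm]
    refine sum_congr rfl fun q _ => ?_
    rw [← E_cw p (α 0) q, sum_mul]
    refine sum_congr rfl fun C _ => ?_
    rw [Fin.prod_univ_succ]
    unfold zC cw
    simp only
    by_cases hC : C (α 0 q) = true
    · rw [dif_pos hC]; ring
    · rw [dif_neg hC]
      have : ind (C (α 0 q)) = 0 := by unfold ind; rw [if_neg hC]
      rw [this]; ring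
  rw [h1]
  unfold valN
  rw [← sum_add_distrib]
  refine sum_le_sum fun q _ => ?_
  by_cases hp : p (α 0 q) = 0
  · rw [if_pos hp, if_pos hp, zero_mul, add_zero]
    refine (le_abs_self _).trans ?_
    rw [abs_mul, abs_mul, abs_mul, abs_sg', abs_of_nonneg (hw q), mul_one]
    have h2 : |∏ i, ind (x i (α i q))| ≤ 1 := by
      rw [abs_of_nonneg (Finset.prod_nonneg fun i _ => ind_nonneg _)]
      exact Finset.prod_le_one (fun i _ => ind_nonneg _) fun i _ => ind_le _
    calc w q * |ζ z q| * |∏ i, ind (x i (α i q))| ≤ w q * 1 * 1 := by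
          have := hw q
          have h3 := hζ z q
          gcongr
      _ = w q := by ring
  · rw [if_neg hp, if_neg hp, one_mul, zero_add]

theorem lin_sum {ι : Type} [Fintype ι] (μ F G H : ι → ℝ) (a b c d l N : ℝ) :
    ∑ C, μ C * ((a * F C + b + c * (l + G C) + H C / d) * N) =
      (a * (∑ C, μ C * F C) + (∑ C, μ C) * b + c * ((∑ C, μ C) * l + ∑ C, μ C * G C) +
        (∑ C, μ C * H C) / d) * N := by
  simp only [add_mul, mul_add, Finset.sum_mul, Finset.mul_sum, Finset.sum_div,
    ← Finset.sum_add_distrib]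
  refine sum_congr rfl fun C _ => ?_
  ring

/-- **The bound for any number of probes.** -/
theorem main_rec {k u S r : ℕ} {L T τ lam θ n0 ps : ℝ}
    (hu : 1 ≤ u) (hr : 1 ≤ r) (hS : 2 * S ≤ 2 ^ (2 ^ r)) (hL : 0 ≤ L) (hT : 0 < T)
    (hST : (S : ℝ) ≤ T) (hτ : 0 < τ) (hlam : 0 < lam) (hθ : 0 < θ) (hn0 : 0 < n0)
    (hps : 0 < ps) (hps1 : ps ≤ 1) (hps2 : ps ≤ θ * n0) :
    ∀ (n : ℕ) (Z : Type) [Fintype Z] (ζ : Z → Fin k × Fin k → ℝ) (w : Fin k × Fin k → ℝ) (B : ℝ)
      (α : Fin (n + 2) → Fin k × Fin k → Fin S)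
      (x : (Fin k → Fin u) → (Fin k × Fin u → Bool) → Fin (n + 2) → Fin S → Bool)
      (s : (Fin k → Fin u) → (Fin k × Fin u → Bool) → Z),
      (∀ z q, |ζ z q| ≤ 1) → 0 < B → (∀ q, 0 ≤ w q) → (∀ q, w q ≤ B) →
      ∑ e, ∑ Y, valN (n + 2) w (ζ (s e Y)) e α (x e Y) Y ≤
        (AA (4 * τ + 8 * 2 ^ r / (τ * u) + 2 * (T * (k * u) * Real.exp (-L))) lam θ u n *
          (∑ q, w q) + DD (4 * 2 ^ r / τ * (L * T)) T n0 ps lam θ n B +
          lam * Real.log (Fintype.card Z) + VV u w / (2 * lam)) * ((u : ℝ) ^ k * 2 ^ (k * u)) := by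
  have hu' : (0 : ℝ) < u := by exact_mod_cast hu
  intro n
  induction n with
  | zero =>
    intro Z _ ζ w B α x s hζ hB hw hwB
    have h1 := base ζ hζ (α 0) (α 1) hu hr hS hB hL hT hST hτ hlam hw hwB s
      (fun e Y => x e Y 0) (fun e Y => x e Y 1)
    have h2 : ∀ e Y, valN (0 + 2) w (ζ (s e Y)) e α (x e Y) Y =
        val2 w (ζ (s e Y)) e (α 0) (α 1) (x e Y 0) (x e Y 1) Y := fun e Y => valN_two _ _ _ _ _ _
    simp only [h2]
    refine h1.trans (le_of_eq ?_)
    unfold AA DD
    push_cast
    ring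
  | succ n ih =>
    intro Z _ ζ w B α x s hζ hB hw hwB
    set N : ℝ := (u : ℝ) ^ k * 2 ^ (k * u) with hN
    have hNpos : 0 < N := by positivity
    set m := ∑ q, w q with hm
    have hm0 : 0 ≤ m := sum_nonneg fun q _ => hw q
    set A0 : ℝ := 4 * τ + 8 * 2 ^ r / (τ * u) + 2 * (T * (k * u) * Real.exp (-L)) with hA0
    have hA0' : 0 ≤ A0 := by positivity
    set D0 : ℝ := 4 * 2 ^ r / τ * (L * T) with hD0
    set p : Fin S → ℝ := pp θ n0 (deg w (α 0)) with hp
    have hp0 : ∀ a, 0 ≤ p a := pp_nonneg hθ hn0 _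
    have hp1 : ∀ a, p a ≤ 1 := pp_le_one _
    -- the count of the pairs
    have hcount : ∀ c : ℝ, ∑ _e : Fin k → Fin u, ∑ _Y : Fin k × Fin u → Bool, c = N * c := by
      intro c
      simp only [Finset.sum_const, Finset.card_univ, Fintype.card_fun, Fintype.card_bool,
        Fintype.card_prod, Fintype.card_fin, nsmul_eq_mul, hN]
      push_cast
      ring
    -- the light cells
    have hlight : (∑ q, if p (α 0 q) = 0 then w q else 0) ≤ T * n0 := by
      have h1 : (∑ q, if p (α 0 q) = 0 then w q else 0) =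
          ∑ a, if p a = 0 then deg w (α 0) a else 0 := by
        have h2 : ∀ a, (if p a = 0 then deg w (α 0) a else 0) =
            ∑ q, if α 0 q = a then (if p (α 0 q) = 0 then w q else 0) else 0 := by
          intro a
          unfold deg
          by_cases h3 : p a = 0
          · rw [if_pos h3]
            refine sum_congr rfl fun q _ => ?_
            by_cases h4 : α 0 q = a
            · rw [if_pos h4, if_pos h4, h4, if_pos h3]
            · rw [if_neg h4, if_neg h4]
          · rw [if_neg h3]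
            symm
            refine Finset.sum_eq_zero fun q _ => ?_
            by_cases h4 : α 0 q = a
            · rw [if_pos h4, h4, if_neg h3]
            · rw [if_neg h4]
        simp only [h2]
        rw [sum_comm]
        refine sum_congr rfl fun q _ => ?_
        simp
      rw [h1]
      calc (∑ a, if p a = 0 then deg w (α 0) a else 0) ≤ ∑ _a : Fin S, n0 := by
            refine sum_le_sum fun a _ => ?_
            split_ifs with h3
            · exact ((pp_zero hθ hn0 _ a).1 h3).le
            · exact hn0.le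
        _ = S * n0 := by simp
        _ ≤ T * n0 := by gcongr
    -- the sum
    have hsum : ∑ e, ∑ Y, valN (n + 1 + 2) w (ζ (s e Y)) e α (x e Y) Y ≤
        N * (T * n0) + ∑ C, mu p C * ∑ e, ∑ Y, valN (n + 2) (fun q => w q * cw p (α 0) C q)
          (zC ζ (α 0) C (s e Y, fun a => x e Y 0 a.1)) e (fun i => α i.succ)
          (fun i => x e Y i.succ) Y := by
      calc ∑ e, ∑ Y, valN (n + 1 + 2) w (ζ (s e Y)) e α (x e Y) Y
          ≤ ∑ e : Fin k → Fin u, ∑ Y : Fin k × Fin u → Bool, (T * n0 + ∑ C, mu p C *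
            valN (n + 2) (fun q => w q * cw p (α 0) C q)
            (zC ζ (α 0) C (s e Y, fun a => x e Y 0 a.1)) e (fun i => α i.succ)
            (fun i => x e Y i.succ) Y) := by
            refine sum_le_sum fun e _ => sum_le_sum fun Y _ => ?_
            exact (step_pt hw hζ e α (x e Y) Y (s e Y) p).trans (add_le_add hlight le_rfl)
        _ = _ := by
            simp only [sum_add_distrib]
            rw [hcount]
            congr 1
            simp only [mul_sum]
            exact (sum_congr rfl fun e _ => sum_comm).trans sum_comm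
    refine hsum.trans ?_
    -- the bound for one set `C`
    have hC : ∀ C : Fin S → Bool, ∑ e, ∑ Y, valN (n + 2) (fun q => w q * cw p (α 0) C q)
          (zC ζ (α 0) C (s e Y, fun a => x e Y 0 a.1)) e (fun i => α i.succ)
          (fun i => x e Y i.succ) Y ≤
        (AA A0 lam θ u n * (∑ q, w q * cw p (α 0) C q) + DD D0 T n0 ps lam θ n (B / ps) +
          lam * (Real.log (Fintype.card Z) + ∑ a, ind (C a)) +
          VV u (fun q => w q * cw p (α 0) C q) / (2 * lam)) * N := by
      intro C
      have h1 := ih (Z × ({a // C a = true} → Bool)) (zC ζ (α 0) C)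
        (fun q => w q * cw p (α 0) C q) (B / ps) (fun i => α i.succ)
        (fun e Y i => x e Y i.succ) (fun e Y => (s e Y, fun a => x e Y 0 a.1))
        (zC_abs hζ (α 0) C) (by positivity)
        (fun q => mul_nonneg (hw q) (cw_nonneg hp0 (α 0) C q))
        (fun q => by
          by_cases h2 : p (α 0 q) = 0
          · unfold cw
            rw [h2, div_zero, mul_zero]
            positivity
          · have h3 : ¬ deg w (α 0) (α 0 q) < n0 := fun h4 => h2 ((pp_zero hθ hn0 _ _).2 h4)
            have h4 : ps ≤ p (α 0 q) := pp_ge hθ hps1 hps2 _ _ h3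
            have h5 : cw p (α 0) C q ≤ 1 / ps := by
              unfold cw
              have := ind_le (C (α 0 q))
              gcongr
            calc w q * cw p (α 0) C q ≤ B * (1 / ps) :=
                  mul_le_mul (hwB q) h5 (cw_nonneg hp0 (α 0) C q) hB.le
              _ = B / ps := by ring)
      refine h1.trans ?_
      have h2 : Real.log (Fintype.card (Z × ({a // C a = true} → Bool))) ≤
          Real.log (Fintype.card Z) + ∑ a, ind (C a) := by
        rw [Fintype.card_prod, Fintype.card_fun, Fintype.card_bool]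
        push_cast
        have hc0 : 0 ≤ ∑ a, ind (C a) := sum_nonneg fun a _ => ind_nonneg _
        rcases Nat.eq_zero_or_pos (Fintype.card Z) with hz | hz
        · rw [hz]
          simp
          exact hc0
        · have hz' : (0 : ℝ) < Fintype.card Z := by exact_mod_cast hz
          rw [Real.log_mul hz'.ne' (by positivity), Real.log_pow, card_C]
          have h3 : Real.log 2 ≤ 1 := by
            have := Real.log_two_lt_d9
            linarith
          have := mul_le_mul_of_nonneg_left h3 hc0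
          linarith
      gcongr
    have hmu := mu_nonneg hp0 hp1
    have hA : 0 ≤ AA A0 lam θ u n := by unfold AA; positivity
    calc N * (T * n0) + ∑ C, mu p C * ∑ e, ∑ Y, valN (n + 2) (fun q => w q * cw p (α 0) C q)
          (zC ζ (α 0) C (s e Y, fun a => x e Y 0 a.1)) e (fun i => α i.succ)
          (fun i => x e Y i.succ) Y
        ≤ N * (T * n0) + ∑ C, mu p C * ((AA A0 lam θ u n * (∑ q, w q * cw p (α 0) C q) +
          DD D0 T n0 ps lam θ n (B / ps) +
          lam * (Real.log (Fintype.card Z) + ∑ a, ind (C a)) +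
          VV u (fun q => w q * cw p (α 0) C q) / (2 * lam)) * N) := by
          refine add_le_add le_rfl (sum_le_sum fun C _ => ?_)
          exact mul_le_mul_of_nonneg_left (hC C) (hmu C)
      _ = N * (T * n0) + (AA A0 lam θ u n * (∑ C, mu p C * ∑ q, w q * cw p (α 0) C q) +
          (∑ C, mu p C) * DD D0 T n0 ps lam θ n (B / ps) +
          lam * ((∑ C, mu p C) * Real.log (Fintype.card Z) + ∑ C, mu p C * ∑ a, ind (C a)) +
          (∑ C, mu p C * VV u (fun q => w q * cw p (α 0) C q)) / (2 * lam)) * N := by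
          congr 1
          exact lin_sum (mu p) (fun C => ∑ q, w q * cw p (α 0) C q) (fun C => ∑ a, ind (C a))
            (fun C => VV u (fun q => w q * cw p (α 0) C q)) _ _ _ _ _ _
      _ ≤ N * (T * n0) + (AA A0 lam θ u n * m + DD D0 T n0 ps lam θ n (B / ps) +
          lam * (Real.log (Fintype.card Z) + θ * m) +
          (VV u w + (T * B + m / u) / θ) / (2 * lam)) * N := by
          have h1 : ∑ C, mu p C * ∑ q, w q * cw p (α 0) C q ≤ m := by
            simp only [mul_sum]
            rw [sum_comm]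
            refine sum_le_sum fun q _ => ?_
            have h2 : ∑ C, mu p C * (w q * cw p (α 0) C q) =
                w q * (if p (α 0 q) = 0 then 0 else 1) := by
              rw [← E_cw p (α 0) q, mul_sum]
              exact sum_congr rfl fun C _ => by ring
            rw [h2]
            split_ifs
            · rw [mul_zero]; exact hw q
            · rw [mul_one]
          have h2 : ∑ C, mu p C * ∑ a, ind (C a) ≤ θ * m := by
            simp only [mul_sum]
            rw [sum_comm]
            simp only [sum_mu_one]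
            calc ∑ a, p a ≤ ∑ a, θ * deg w (α 0) a :=
                  sum_le_sum fun a _ => pp_le hθ _ (deg_nonneg hw (α 0)) a
              _ = θ * m := by rw [← mul_sum, sum_deg]
              _ = _ := by rw [hm, mul_sum]
          have h3 : ∑ C, mu p C * VV u (fun q => w q * cw p (α 0) C q) ≤
              VV u w + (T * B + m / u) / θ := by
            refine (E_VV hu hw hwB hB.le hp0 hp1 (α 0) hθ (dd_pp hθ hn0 _)).trans ?_
            gcongr
          rw [sum_mu, one_mul, one_mul]
          gcongr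
      _ = (AA A0 lam θ u (n + 1) * m + DD D0 T n0 ps lam θ (n + 1) B +
          lam * Real.log (Fintype.card Z) + VV u w / (2 * lam)) * N := by
          unfold AA
          rw [show DD D0 T n0 ps lam θ (n + 1) B = T * n0 + DD D0 T n0 ps lam θ n (B / ps) +
            T * B / (2 * lam * θ) from rfl]
          push_cast
          field_simp
          ring

end Pool.Agent.H34TP
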