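import Pool.Agent.H34TP.Base2

set_option autoImplicit false

/-!
# Random sets of cells
-/

namespace Pool.Agent.H34TP

open Finset Pool.Agent.R563.TP
open scoped Classical

/-- the probability of the set `C` -/
noncomputable def mu {S : ℕ} (p : Fin S → ℝ) (C : Fin S → Bool) : ℝ :=
  ∏ a, if C a = true then p a else 1 - p a

theorem mu_nonneg {S : ℕ} {p : Fin S → ℝ} (h0 : ∀ a, 0 ≤ p a) (h1 : ∀ a, p a ≤ 1)
    (C : Fin S → Bool) : 0 ≤ mu p C :=
  Finset.prod_nonneg fun a _ => by
    split_ifs
    · exact h0 a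
    · linarith [h1 a]

theorem sum_mu_prod {S : ℕ} (p : Fin S → ℝ) (h : Fin S → Bool → ℝ) :
    ∑ C, mu p C * ∏ a, h a (C a) = ∏ a, (p a * h a true + (1 - p a) * h a false) := by
  unfold mu
  simp only [← Finset.prod_mul_distrib]
  have h1 : ∏ a, (p a * h a true + (1 - p a) * h a false) =
      ∏ a, ∑ b : Bool, (if b = true then p a else 1 - p a) * h a b := by
    refine Finset.prod_congr rfl fun a _ => ?_
    simp
  rw [h1, Finset.prod_univ_sum, Fintype.piFinset_univ]

theorem sum_mu {S : ℕ} (p : Fin S → ℝ) : ∑ C, mu p C = 1 := by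
  have h := sum_mu_prod p (fun _ _ => 1)
  simpa using h

theorem sum_mu_one {S : ℕ} (p : Fin S → ℝ) (a : Fin S) : ∑ C, mu p C * ind (C a) = p a := by
  have h := sum_mu_prod p (fun b c => if b = a then ind c else 1)
  have h1 : ∀ C : Fin S → Bool, ∏ b, (if b = a then ind (C b) else 1) = ind (C a) := by
    intro C
    rw [Finset.prod_ite_eq' univ a (fun b => ind (C b)), if_pos (mem_univ a)]
  simp only [h1] at h
  rw [h]
  have h2 : ∀ b, (p b * (if b = a then ind true else 1) + (1 - p b) * (if b = a then ind false else 1)) =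
      if b = a then p b else 1 := by
    intro b
    split_ifs <;> simp [ind]
  simp only [h2]
  rw [Finset.prod_ite_eq' univ a (fun b => p b), if_pos (mem_univ a)]

theorem sum_mu_two {S : ℕ} (p : Fin S → ℝ) {a b : Fin S} (hab : a ≠ b) :
    ∑ C, mu p C * (ind (C a) * ind (C b)) = p a * p b := by
  have h := sum_mu_prod p (fun x c => (if x = a then ind c else 1) * (if x = b then ind c else 1))
  have h1 : ∀ C : Fin S → Bool, ∏ x, ((if x = a then ind (C x) else 1) *
      (if x = b then ind (C x) else 1)) = ind (C a) * ind (C b) := by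
    intro C
    rw [Finset.prod_mul_distrib, Finset.prod_ite_eq' univ a (fun b => ind (C b)),
      if_pos (mem_univ a), Finset.prod_ite_eq' univ b (fun b => ind (C b)), if_pos (mem_univ b)]
  simp only [h1] at h
  rw [h]
  have h2 : ∀ x, (p x * ((if x = a then ind true else 1) * (if x = b then ind true else 1)) +
      (1 - p x) * ((if x = a then ind false else 1) * (if x = b then ind false else 1))) =
      (if x = a then p x else 1) * (if x = b then p x else 1) := by
    intro x
    by_cases hxa : x = a
    · have hxb : x ≠ b := fun h => hab (hxa ▸ h)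
      simp [ind, hxa, hab]
    · by_cases hxb : x = b
      · simp [ind, hxb, Ne.symm hab]
      · simp [ind, hxa, hxb]
  simp only [h2]
  rw [Finset.prod_mul_distrib, Finset.prod_ite_eq' univ a (fun b => p b), if_pos (mem_univ a),
    Finset.prod_ite_eq' univ b (fun b => p b), if_pos (mem_univ b)]

/-- the importance weights -/
noncomputable def cw {k S : ℕ} (p : Fin S → ℝ) (α : Fin k × Fin k → Fin S) (C : Fin S → Bool)
    (q : Fin k × Fin k) : ℝ := ind (C (α q)) / p (α q)

theorem cw_nonneg {k S : ℕ} {p : Fin S → ℝ} (h0 : ∀ a, 0 ≤ p a) (α : Fin k × Fin k → Fin S)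
    (C : Fin S → Bool) (q : Fin k × Fin k) : 0 ≤ cw p α C q :=
  div_nonneg (ind_nonneg _) (h0 _)

theorem ind_sq (b : Bool) : ind b * ind b = ind b := by unfold ind; split_ifs <;> norm_num

theorem E_cw {k S : ℕ} (p : Fin S → ℝ) (α : Fin k × Fin k → Fin S) (q : Fin k × Fin k) :
    ∑ C, mu p C * cw p α C q = if p (α q) = 0 then 0 else 1 := by
  unfold cw
  have h1 : ∑ C, mu p C * (ind (C (α q)) / p (α q)) = p (α q) / p (α q) := by
    rw [← sum_mu_one p (α q), Finset.sum_div]
    refine sum_congr rfl fun C _ => ?_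
    rw [sum_mu_one]
    ring
  rw [h1]
  split_ifs with h
  · rw [h, div_zero]
  · exact div_self h

/-- the variance of the weight of a cell -/
noncomputable def dd {S : ℕ} (p : Fin S → ℝ) (a : Fin S) : ℝ := if p a = 0 then 0 else 1 / p a - 1

theorem dd_nonneg {S : ℕ} {p : Fin S → ℝ} (h0 : ∀ a, 0 ≤ p a) (h1 : ∀ a, p a ≤ 1) (a : Fin S) :
    0 ≤ dd p a := by
  unfold dd
  split_ifs with h
  · exact le_rfl
  · have h2 : 0 < p a := lt_of_le_of_ne (h0 a) (Ne.symm h)
    have h3 : 1 ≤ 1 / p a := by rw [le_div_iff₀ h2]; linarith [h1 a]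
    linarith

theorem E_cw2 {k S : ℕ} {p : Fin S → ℝ} (h0 : ∀ a, 0 ≤ p a) (h1 : ∀ a, p a ≤ 1)
    (α : Fin k × Fin k → Fin S) (q q' : Fin k × Fin k) :
    ∑ C, mu p C * (cw p α C q * cw p α C q') ≤ 1 + if α q = α q' then dd p (α q) else 0 := by
  unfold cw
  by_cases h : α q = α q'
  · rw [if_pos h, ← h]
    have h2 : ∑ C, mu p C * (ind (C (α q)) / p (α q) * (ind (C (α q)) / p (α q))) =
        p (α q) / p (α q) / p (α q) := by
      conv_rhs => rw [← sum_mu_one p (α q)]
      rw [Finset.sum_div, Finset.sum_div]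
      refine sum_congr rfl fun C _ => ?_
      rw [sum_mu_one]
      have : ind (C (α q)) / p (α q) * (ind (C (α q)) / p (α q)) =
          (ind (C (α q)) * ind (C (α q))) / p (α q) / p (α q) := by
        rw [div_mul_div_comm, div_div]
      rw [this, ind_sq]
      ring
    rw [h2]
    unfold dd
    split_ifs with h3
    · rw [h3]; simp
    · rw [div_self h3]; linarith
  · rw [if_neg h, add_zero]
    have h2 : ∑ C, mu p C * (ind (C (α q)) / p (α q) * (ind (C (α q')) / p (α q'))) =
        (p (α q) * p (α q')) / (p (α q) * p (α q')) := by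
      conv_rhs => rw [← sum_mu_two p h]
      rw [Finset.sum_div]
      refine sum_congr rfl fun C _ => ?_
      rw [sum_mu_two p h, div_mul_div_comm]
      ring
    rw [h2]
    exact div_self_le_one _

/-! ### The kernel -/

/-- the probability that two queries are in the same class -/
noncomputable def Kf {k : ℕ} (u : ℕ) (q q' : Fin k × Fin k) : ℝ :=
  (∑ e : Fin k → Fin u, if cls e q = cls e q' then (1 : ℝ) else 0) / (u : ℝ) ^ k

theorem Kf_nonneg {k : ℕ} (u : ℕ) (q q' : Fin k × Fin k) : 0 ≤ Kf u q q' := by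
  unfold Kf
  refine div_nonneg (sum_nonneg fun e _ => ?_) (by positivity)
  split_ifs <;> norm_num

theorem VV_eq {k : ℕ} (u : ℕ) (w : Fin k × Fin k → ℝ) :
    VV u w = ∑ q, ∑ q', Kf u q q' * (w q * w q') := by
  unfold VV Kf
  have h1 : ∀ e : Fin k → Fin u, ∑ l, nl w e l ^ 2 =
      ∑ q, ∑ q', (if cls e q = cls e q' then (1 : ℝ) else 0) * (w q * w q') := by
    intro e
    unfold nl
    have h2 : ∀ l : Fin k × Fin u, (∑ q, if cls e q = l then w q else 0) ^ 2 =
        ∑ q, ∑ q', (if cls e q = l then w q else 0) * (if cls e q' = l then w q' else 0) := by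
      intro l
      rw [sq, Finset.sum_mul_sum]
    simp only [h2]
    rw [sum_comm]
    refine sum_congr rfl fun q _ => ?_
    rw [sum_comm]
    refine sum_congr rfl fun q' _ => ?_
    rw [Finset.sum_eq_single (cls e q)]
    · rw [if_pos rfl]
      by_cases h3 : cls e q = cls e q'
      · rw [if_pos h3, if_pos h3.symm, one_mul]
      · rw [if_neg h3, if_neg (Ne.symm h3)]; ring
    · intro l _ hl
      rw [if_neg (Ne.symm hl), zero_mul]
    · simp
  simp only [h1]
  rw [sum_comm, Finset.sum_div]
  refine sum_congr rfl fun q _ => ?_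
  rw [sum_comm, Finset.sum_div]
  refine sum_congr rfl fun q' _ => ?_
  rw [← sum_mul]
  ring

theorem Kf_le_one {k u : ℕ} (hu : 1 ≤ u) (q q' : Fin k × Fin k) : Kf u q q' ≤ 1 := by
  have hu' : (0 : ℝ) < u := by exact_mod_cast hu
  unfold Kf
  rw [div_le_one (by positivity)]
  calc (∑ e : Fin k → Fin u, if cls e q = cls e q' then (1 : ℝ) else 0)
      ≤ ∑ _e : Fin k → Fin u, (1 : ℝ) := sum_le_sum fun e _ => by split_ifs <;> norm_num
    _ = (u : ℝ) ^ k := by simp

/-- the number of the maps with equal values at two places -/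
theorem card_eq {k u : ℕ} {i i' : Fin k} (h : i ≠ i') :
    (u : ℝ) * (∑ e : Fin k → Fin u, if e i = e i' then (1 : ℝ) else 0) ≤ (u : ℝ) ^ k := by
  have h1 : (∑ e : Fin k → Fin u, if e i = e i' then (1 : ℝ) else 0) =
      ((univ.filter fun e : Fin k → Fin u => e i = e i').card : ℝ) := by
    rw [Finset.card_filter]; push_cast; rfl
  rw [h1]
  have h2 : ((univ : Finset (Fin u)) ×ˢ (univ.filter fun e : Fin k → Fin u => e i = e i')).card ≤
      (univ : Finset (Fin k → Fin u)).card := by
    refine Finset.card_le_card_of_injOn (fun x => Function.update x.2 i x.1) (fun _ _ => mem_univ _)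
      ?_
    rintro ⟨c, e⟩ he ⟨c', e'⟩ he' heq
    simp only [Finset.coe_product, Set.mem_prod, Finset.mem_coe, Finset.mem_filter,
      Finset.mem_univ, true_and] at he he'
    simp only at heq
    have e1 : c = c' := by
      have := congrFun heq i
      simpa using this
    have e2 : ∀ x, x ≠ i → e x = e' x := by
      intro x hx
      have := congrFun heq x
      rwa [Function.update_of_ne hx, Function.update_of_ne hx] at this
    have e3 : e = e' := by
      funext x
      by_cases hx : x = i
      · rw [hx, he, he', e2 i' (Ne.symm h)]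
      · exact e2 x hx
    rw [e1, e3]
  rw [Finset.card_product, Finset.card_univ, Finset.card_univ, Fintype.card_fun, Fintype.card_fin,
    Fintype.card_fin] at h2
  exact_mod_cast h2

theorem Kf_le {k u : ℕ} (hu : 1 ≤ u) (q q' : Fin k × Fin k) :
    Kf u q q' ≤ (if q = q' then 1 else 0) + if q.2 = q'.2 then 1 / (u : ℝ) else 0 := by
  have hu' : (0 : ℝ) < u := by exact_mod_cast hu
  by_cases h : q = q'
  · rw [if_pos h]
    have := Kf_le_one hu q q'
    split_ifs
    · have : (0 : ℝ) < 1 / u := by positivity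
      linarith
    · linarith
  · rw [if_neg h, zero_add]
    by_cases h2 : q.2 = q'.2
    · rw [if_pos h2]
      have h1 : q.1 ≠ q'.1 := fun h1 => h (Prod.ext h1 h2)
      unfold Kf
      rw [div_le_div_iff₀ (by positivity) hu', one_mul]
      have h3 := card_eq (u := u) h1
      have h4 : (∑ e : Fin k → Fin u, if cls e q = cls e q' then (1 : ℝ) else 0) =
          ∑ e : Fin k → Fin u, if e q.1 = e q'.1 then (1 : ℝ) else 0 := by
        refine sum_congr rfl fun e _ => ?_
        unfold cls
        by_cases h5 : e q.1 = e q'.1 <;> simp [h2, h5]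
      rw [h4, mul_comm]
      exact h3
    · rw [if_neg h2]
      unfold Kf
      have h4 : (∑ e : Fin k → Fin u, if cls e q = cls e q' then (1 : ℝ) else 0) = 0 := by
        refine Finset.sum_eq_zero fun e _ => ?_
        unfold cls
        rw [if_neg]
        intro h5
        exact h2 (Prod.mk.inj h5).1
      rw [h4, zero_div]

theorem VV_one {k u : ℕ} (hu : 1 ≤ u) :
    VV u (fun _ : Fin k × Fin k => (1 : ℝ)) ≤ (k : ℝ) ^ 2 + (k : ℝ) ^ 3 / u := by
  rw [VV_eq]
  calc ∑ q : Fin k × Fin k, ∑ q', Kf u q q' * (1 * 1)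
      ≤ ∑ q : Fin k × Fin k, ∑ q' : Fin k × Fin k,
          ((if q = q' then 1 else 0) + if q.2 = q'.2 then 1 / (u : ℝ) else 0) := by
        refine sum_le_sum fun q _ => sum_le_sum fun q' _ => ?_
        rw [mul_one, mul_one]
        exact Kf_le hu q q'
    _ = ∑ q : Fin k × Fin k, (1 + (k : ℝ) / u) := by
        refine sum_congr rfl fun q _ => ?_
        rw [sum_add_distrib]
        congr 1
        · simp
        · rw [Fintype.sum_prod_type]
          simp
          ring
    _ = (k : ℝ) ^ 2 + (k : ℝ) ^ 3 / u := by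
        rw [Finset.sum_const, Finset.card_univ, Fintype.card_prod, Fintype.card_fin,
          nsmul_eq_mul]
        push_cast
        ring

/-- **The mean of the squares after sampling.** -/
theorem E_VV {k u S : ℕ} (hu : 1 ≤ u) {w : Fin k × Fin k → ℝ} (hw : ∀ q, 0 ≤ w q) {B : ℝ}
    (hwB : ∀ q, w q ≤ B) (hB : 0 ≤ B) {p : Fin S → ℝ} (h0 : ∀ a, 0 ≤ p a) (h1 : ∀ a, p a ≤ 1)
    (α : Fin k × Fin k → Fin S) {θ : ℝ} (hθ : 0 < θ) (hd : ∀ a, dd p a * deg w α a ≤ 1 / θ) :
    ∑ C, mu p C * VV u (fun q => w q * cw p α C q) ≤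
      VV u w + (S * B + (∑ q, w q) / u) / θ := by
  have hu' : (0 : ℝ) < u := by exact_mod_cast hu
  have e1 : ∑ C, mu p C * VV u (fun q => w q * cw p α C q) =
      ∑ q, ∑ q', Kf u q q' * (w q * w q') * ∑ C, mu p C * (cw p α C q * cw p α C q') := by
    simp only [VV_eq, mul_sum]
    rw [sum_comm]
    refine sum_congr rfl fun q _ => ?_
    rw [sum_comm]
    refine sum_congr rfl fun q' _ => ?_
    refine sum_congr rfl fun C _ => ?_
    ring
  rw [e1]
  have e2 : ∀ q q', Kf u q q' * (w q * w q') * ∑ C, mu p C * (cw p α C q * cw p α C q') ≤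
      Kf u q q' * (w q * w q') + ((if q = q' then 1 else 0) + 1 / (u : ℝ)) * (w q * w q') *
        (if α q = α q' then dd p (α q) else 0) := by
    intro q q'
    have hK := Kf_nonneg u q q'
    have hww : 0 ≤ w q * w q' := mul_nonneg (hw q) (hw q')
    have hdd : 0 ≤ (if α q = α q' then dd p (α q) else 0) := by
      split_ifs
      · exact dd_nonneg h0 h1 _
      · exact le_rfl
    have hK2 : Kf u q q' ≤ (if q = q' then 1 else 0) + 1 / (u : ℝ) := by
      refine (Kf_le hu q q').trans ?_
      have : (0 : ℝ) < 1 / u := by positivity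
      split_ifs <;> linarith
    calc Kf u q q' * (w q * w q') * ∑ C, mu p C * (cw p α C q * cw p α C q')
        ≤ Kf u q q' * (w q * w q') * (1 + if α q = α q' then dd p (α q) else 0) :=
          mul_le_mul_of_nonneg_left (E_cw2 h0 h1 α q q') (mul_nonneg hK hww)
      _ = Kf u q q' * (w q * w q') + Kf u q q' * (w q * w q') *
          (if α q = α q' then dd p (α q) else 0) := by ring
      _ ≤ _ := by gcongr
  refine (sum_le_sum fun q _ => sum_le_sum fun q' _ => e2 q q').trans ?_
  simp only [sum_add_distrib]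
  rw [← VV_eq]
  refine add_le_add le_rfl ?_
  -- the sum over the cells
  have e3 : ∀ q, ∑ q', ((if q = q' then 1 else 0) + 1 / (u : ℝ)) * (w q * w q') *
        (if α q = α q' then dd p (α q) else 0) ≤
      w q * dd p (α q) * B + w q * dd p (α q) * deg w α (α q) / u := by
    intro q
    have e4 : ∑ q', ((if q = q' then 1 else 0) + 1 / (u : ℝ)) * (w q * w q') *
        (if α q = α q' then dd p (α q) else 0) =
        w q * dd p (α q) * w q + w q * dd p (α q) * deg w α (α q) / u := by
      have e5 : ∀ q', ((if q = q' then 1 else 0) + 1 / (u : ℝ)) * (w q * w q') *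
          (if α q = α q' then dd p (α q) else 0) =
          (if q = q' then w q * dd p (α q) * w q' else 0) +
          w q * dd p (α q) / u * (if α q' = α q then w q' else 0) := by
        intro q'
        by_cases h3 : q = q'
        · subst h3; simp only [if_true]; ring
        · by_cases h4 : α q = α q'
          · rw [if_neg h3, if_neg h3, if_pos h4, if_pos h4.symm]; ring
          · rw [if_neg h3, if_neg h3, if_neg h4, if_neg (Ne.symm h4)]; ring
      simp only [e5]
      rw [sum_add_distrib, ← mul_sum]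
      unfold deg
      simp only [Finset.sum_ite_eq, mem_univ, if_true]
      ring
    rw [e4]
    have := mul_nonneg (hw q) (dd_nonneg h0 h1 (α q))
    have := hwB q
    gcongr
  refine (sum_le_sum fun q _ => e3 q).trans ?_
  have e6 : ∀ F : Fin S → ℝ, ∑ q, w q * F (α q) = ∑ a, deg w α a * F a := by
    intro F
    unfold deg
    simp only [sum_mul]
    rw [sum_comm]
    refine sum_congr rfl fun q _ => ?_
    rw [Finset.sum_eq_single (α q)]
    · rw [if_pos rfl]
    · intro a _ ha
      rw [if_neg (Ne.symm ha), zero_mul]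
    · simp
  have e7 : ∑ q, (w q * dd p (α q) * B + w q * dd p (α q) * deg w α (α q) / u) =
      ∑ a, (dd p a * deg w α a) * (B + deg w α a / u) := by
    have e8 : ∀ q, w q * dd p (α q) * B + w q * dd p (α q) * deg w α (α q) / u =
        w q * (dd p (α q) * (B + deg w α (α q) / u)) := fun q => by ring
    simp only [e8]
    rw [e6 (fun a => dd p a * (B + deg w α a / u))]
    exact sum_congr rfl fun a _ => by ring
  rw [e7]
  calc ∑ a, (dd p a * deg w α a) * (B + deg w α a / u)
      ≤ ∑ a, 1 / θ * (B + deg w α a / u) := by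
        refine sum_le_sum fun a _ => mul_le_mul_of_nonneg_right (hd a) ?_
        have := deg_nonneg hw α a
        positivity
    _ = (S * B + (∑ q, w q) / u) / θ := by
        rw [← mul_sum, sum_add_distrib, ← Finset.sum_div, sum_deg]
        simp only [Finset.sum_const, Finset.card_univ, Fintype.card_fin, nsmul_eq_mul]
        ring

end Pool.Agent.H34TP
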