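import Pool.Agent.H34TP.Rec
import Pool.Agent.R563.TP.Sum

set_option autoImplicit false

/-!
# Decision trees
-/

namespace Pool.Agent.H34TP

open Finset Pool.Agent.R563.TP Pool.Agent.R563.TP.SumP
open scoped Classical

/-- the value of the tree stopped after `t` probes -/
noncomputable def tval {S W : ℕ} (s0 : Fin S) : ℕ → Pool.Agent.W964.Si.Alg S W Bool →
    (Fin S → Fin W) → ℝ
  | 0, A, _ => sg (ans A)
  | t + 1, A, mem => tval s0 t (next (mem (cell1 s0 A)) A) mem

theorem tval_eq {S W : ℕ} (s0 : Fin S) (mem : Fin S → Fin W) :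
    ∀ (t : ℕ) (A : Pool.Agent.W964.Si.Alg S W Bool), A.probes mem ≤ t →
      tval s0 t A mem = sg (A.out mem) := by
  intro t
  induction t with
  | zero =>
    intro A h
    show sg (ans A) = _
    rw [ans_of mem A h]
  | succ t ih =>
    intro A h
    obtain ⟨h1, h2⟩ := probes_next s0 mem A t h
    show tval s0 t (next (mem (cell1 s0 A)) A) mem = _
    rw [ih _ h1, h2]

theorem tval_abs {S W : ℕ} (s0 : Fin S) (mem : Fin S → Fin W) :
    ∀ (t : ℕ) (A : Pool.Agent.W964.Si.Alg S W Bool), |tval s0 t A mem| ≤ 1 := by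
  intro t
  induction t with
  | zero => intro A; exact (abs_sg' _).le
  | succ t ih => intro A; exact ih _

/-- the sign of a truth value: the value of the tree is a sign -/
theorem tval_sg {S W : ℕ} (s0 : Fin S) (mem : Fin S → Fin W) :
    ∀ (t : ℕ) (A : Pool.Agent.W964.Si.Alg S W Bool), ∃ b, tval s0 t A mem = sg b := by
  intro t
  induction t with
  | zero => intro A; exact ⟨ans A, rfl⟩
  | succ t ih => intro A; exact ih _

/-- the cells on a path -/
def cells {S W : ℕ} (s0 : Fin S) : (t : ℕ) → Pool.Agent.W964.Si.Alg S W Bool →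
    (Fin t → Fin W) → Fin t → Fin S
  | 0, _, _ => Fin.elim0
  | t + 1, A, v => Fin.cons (cell1 s0 A) (cells s0 t (next (v 0) A) (Fin.tail v))

/-- the answer at the end of a path -/
noncomputable def coef {S W : ℕ} : (t : ℕ) → Pool.Agent.W964.Si.Alg S W Bool →
    (Fin t → Fin W) → ℝ
  | 0, A, _ => sg (ans A)
  | t + 1, A, v => coef t (next (v 0) A) (Fin.tail v)

theorem coef_abs {S W : ℕ} : ∀ (t : ℕ) (A : Pool.Agent.W964.Si.Alg S W Bool)
    (v : Fin t → Fin W), |coef t A v| ≤ 1 := by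
  intro t
  induction t with
  | zero => intro A v; exact (abs_sg' _).le
  | succ t ih => intro A v; exact ih _ _

/-- the expansion over the paths -/
theorem expand {S W : ℕ} (s0 : Fin S) (mem : Fin S → Fin W) :
    ∀ (t : ℕ) (A : Pool.Agent.W964.Si.Alg S W Bool),
      ∑ v : Fin t → Fin W, coef t A v * ∏ i, ind (decide (mem (cells s0 t A v i) = v i)) =
        tval s0 t A mem := by
  intro t
  induction t with
  | zero =>
    intro A
    simp [coef, tval]
  | succ t ih =>
    intro A
    rw [← (Fin.consEquiv (fun _ : Fin (t + 1) => Fin W)).sum_comp, Fintype.sum_prod_type]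
    have h1 : ∀ (c : Fin W) (v : Fin t → Fin W),
        coef (t + 1) A (Fin.consEquiv (fun _ : Fin (t + 1) => Fin W) (c, v)) *
          ∏ i, ind (decide (mem (cells s0 (t + 1) A (Fin.consEquiv (fun _ : Fin (t + 1) => Fin W)
            (c, v)) i) = (Fin.consEquiv (fun _ : Fin (t + 1) => Fin W) (c, v)) i)) =
        ind (decide (mem (cell1 s0 A) = c)) * (coef t (next c A) v *
          ∏ i, ind (decide (mem (cells s0 t (next c A) v i) = v i))) := by
      intro c v
      rw [Fin.prod_univ_succ]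
      have ht : (Fin.tail ((Fin.consEquiv (fun _ : Fin (t + 1) => Fin W)) (c, v)) :
          Fin t → Fin W) = v := rfl
      simp only [Fin.consEquiv_apply, coef, cells, Fin.cons_zero, Fin.cons_succ] at ht ⊢
      rw [ht]
      ring
    simp only [h1]
    have h2 : ∀ c : Fin W, ∑ v : Fin t → Fin W, ind (decide (mem (cell1 s0 A) = c)) *
        (coef t (next c A) v * ∏ i, ind (decide (mem (cells s0 t (next c A) v i) = v i))) =
        if c = mem (cell1 s0 A) then tval s0 t (next c A) mem else 0 := by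
      intro c
      rw [← mul_sum, ih]
      unfold ind
      by_cases h : mem (cell1 s0 A) = c
      · simp [h]
      · simp [h, Ne.symm h]
    simp only [h2]
    simp [tval]

/-- **The bound for decision trees.** -/
theorem tree_bound {k u S W r n : ℕ} {L T τ lam θ n0 ps Q : ℝ} (s0 : Fin S)
    (hu : 1 ≤ u) (hr : 1 ≤ r) (hS : 2 * S ≤ 2 ^ (2 ^ r)) (hL : 0 ≤ L) (hT : 0 < T)
    (hST : (S : ℝ) ≤ T) (hτ : 0 < τ) (hlam : 0 < lam) (hθ : 0 < θ) (hn0 : 0 < n0)
    (hps : 0 < ps) (hps1 : ps ≤ 1) (hps2 : ps ≤ θ * n0)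
    (hQ : AA (4 * τ + 8 * 2 ^ r / (τ * u) + 2 * (T * (k * u) * Real.exp (-L))) lam θ u n *
          (k : ℝ) ^ 2 + DD (4 * 2 ^ r / τ * (L * T)) T n0 ps lam θ n 1 +
          ((k : ℝ) ^ 2 + (k : ℝ) ^ 3 / u) / (2 * lam) ≤ Q)
    (A : Fin k × Fin k → Pool.Agent.W964.Si.Alg S W Bool)
    (mem : (Fin k → Fin u) → (Fin k × Fin u → Bool) → Fin S → Fin W) :
    ∑ e, ∑ Y, ∑ q, sg (Y (cls e q)) * tval s0 (n + 2) (A q) (mem e Y) ≤
      (W : ℝ) ^ (n + 2) * Q * ((u : ℝ) ^ k * 2 ^ (k * u)) := by
  have h1 : ∀ (e : Fin k → Fin u) (Y : Fin k × Fin u → Bool),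
      ∑ q, sg (Y (cls e q)) * tval s0 (n + 2) (A q) (mem e Y) =
      ∑ v : Fin (n + 2) → Fin W, valN (n + 2) (fun _ => 1) (fun q => coef (n + 2) (A q) v) e
        (fun i q => cells s0 (n + 2) (A q) v i) (fun i a => decide (mem e Y a = v i)) Y := by
    intro e Y
    unfold valN
    rw [sum_comm]
    refine sum_congr rfl fun q _ => ?_
    rw [← expand s0 (mem e Y) (n + 2) (A q), mul_sum]
    refine sum_congr rfl fun v _ => ?_
    ring
  simp only [h1]
  have h2 : ∑ e : Fin k → Fin u, ∑ Y : Fin k × Fin u → Bool, ∑ v : Fin (n + 2) → Fin W,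
      valN (n + 2) (fun _ => 1) (fun q => coef (n + 2) (A q) v) e
        (fun i q => cells s0 (n + 2) (A q) v i) (fun i a => decide (mem e Y a = v i)) Y =
      ∑ v : Fin (n + 2) → Fin W, ∑ e : Fin k → Fin u, ∑ Y : Fin k × Fin u → Bool,
      valN (n + 2) (fun _ => 1) (fun q => coef (n + 2) (A q) v) e
        (fun i q => cells s0 (n + 2) (A q) v i) (fun i a => decide (mem e Y a = v i)) Y :=
    (sum_congr rfl fun e _ => sum_comm).trans sum_comm
  rw [h2]
  have h3 : ∀ v : Fin (n + 2) → Fin W, ∑ e : Fin k → Fin u, ∑ Y : Fin k × Fin u → Bool,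
      valN (n + 2) (fun _ => 1) (fun q => coef (n + 2) (A q) v) e
        (fun i q => cells s0 (n + 2) (A q) v i) (fun i a => decide (mem e Y a = v i)) Y ≤
      Q * ((u : ℝ) ^ k * 2 ^ (k * u)) := by
    intro v
    have h4 := main_rec (k := k) (u := u) (S := S) (r := r) hu hr hS hL hT hST hτ hlam hθ hn0 hps
      hps1 hps2 n Unit (fun _ q => coef (n + 2) (A q) v) (fun _ => 1) 1
      (fun i q => cells s0 (n + 2) (A q) v i)
      (fun e Y i a => decide (mem e Y a = v i)) (fun _ _ => ())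
      (fun _ q => coef_abs _ _ _) one_pos (fun _ => zero_le_one) (fun _ => le_rfl)
    refine h4.trans ?_
    refine mul_le_mul_of_nonneg_right ?_ (by positivity)
    refine le_trans ?_ hQ
    have h5 := VV_one (k := k) hu
    have h6 : ∑ _q : Fin k × Fin k, (1 : ℝ) = (k : ℝ) ^ 2 := by
      rw [Finset.sum_const, Finset.card_univ, Fintype.card_prod, Fintype.card_fin]
      simp [sq]
    rw [h6]
    simp only [Fintype.card_unit, Nat.cast_one, Real.log_one, mul_zero, add_zero]
    gcongr
  refine (sum_le_sum fun v _ => h3 v).trans (le_of_eq ?_)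
  rw [Finset.sum_const, Finset.card_univ, Fintype.card_fun, Fintype.card_fin, Fintype.card_fin,
    nsmul_eq_mul]
  push_cast
  ring

end Pool.Agent.H34TP
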